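import Pool.Agent.MP_5d9b3c_ag.P3R.B1
import Pool.Agent.MP_5d9b3c_ag.P3.Defs

/-! Stable models: the statements that are used by the final argument. -/

namespace Pool.Agent.MP_5d9b3c_ag.P3R

open Pool.Agent.MP_ee8c61_ag
open M3 P3 P3T

variable {N : ℕ} {f : Po N} {F : Type} [Field F] [Algebra F ℂ]

theorem fxP_iff {g : Po N} : FxP F g ↔ ip N g ∈ (gaK F N).fix :=
  forall_congr' fun σ => by
    rw [gaK_ip]
    exact ⟨congrArg _, fun h => M3E.RB1.ip_inj h⟩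

theorem stM_of {W : Set (Po N)} {M : Mod N} (hM : M.OK f) (hS : StabM (gaK F N) M)
    (hB : Blw (gaK F N) f W M) : StM F f W M := by
  refine ⟨hM, fun w hw => fxP_iff.2 (hB.fix w hw), hB.good, fun Q => by rw [hB.pts]; rfl,
    hS.perm, fun Q hQ hF j hj => GA.invO_iff.2 fun σ => ?_, hS.amp⟩
  obtain ⟨j', e⟩ := hS.perm σ j
  have := hS.sep σ j j' e Q hQ hj fun g hg => by
    rw [e, SI.mem_F]
    exact hj _ ((SI.mem_sa _).1 (by rw [← SI.loc_O, hF σ]; exact hg))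
  rw [← e, this]

theorem stb_of {G : Finset (Po N)} (h : ∀ g ∈ G, FxP F g) : (gaK F N).Stb (ip N '' G) :=
  GA.stb_of_fix (by
    rintro _ ⟨g, hg, rfl⟩
    exact fxP_iff.1 (h g hg))

theorem sb1R : SB1R := fun F _ _ _ N f G hf h1 h2 h3 => by
  obtain ⟨M, a1, a2, ⟨W, a3, -⟩, a4⟩ := sb1G (A := gaK F N) xx_fix f G hf h3 (fxP_iff.1 h1)
    (stb_of h2)
  exact ⟨W, M, stM_of a1 a2 a3, a4⟩

theorem sb1G' : SB1G := fun F _ _ _ N f W M κ _ G h1 h2 h3 h4 => by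
  classical
  obtain ⟨M', a1, ⟨a2, W', a3⟩, a4, a5⟩ := b1W (A := gaK F N) xx_fix (fxP_iff.1 h1) h2.ok h2.perm
    h2.amp κ (fun i => (G i).image (ip N)) (fun i g hg => by
      obtain ⟨p, -, rfl⟩ := Finset.mem_image.1 hg
      exact ⟨0, p, by simp⟩) (fun i => by
      obtain ⟨r, hr⟩ := h4 i
      exact ⟨r, Finset.mem_image.2 ⟨_, hr, map_pow _ _ _⟩⟩) fun i => by
      rw [Finset.coe_image]
      exact stb_of (h3 i)
  refine ⟨W', M', stM_of a1 a2 a3, a4, fun i => ?_⟩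
  obtain ⟨c, hc⟩ := a5 i
  exact ⟨c, fun T hT => by rwa [Finset.coe_injective (hT.trans Finset.coe_image.symm)]⟩

end Pool.Agent.MP_5d9b3c_ag.P3R
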