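import Pool.Agent.MP_5d9b3c_ag.P3.Defs
import Pool.Agent.MP_ee8c61_ag.M3E.Asm
import Pool.Agent.MP_ee8c61_ag.M3E.RB1
import Pool.Agent.MP_ee8c61_ag.M3B1.Basic

/-! Stable dominating models that principalise finitely many finite sets of polynomials. -/

namespace Pool.Agent.MP_5d9b3c_ag.P3

open MP_ee8c61_ag MP_ee8c61_ag.M3 MP_ee8c61_ag.M3E Finset
open Pool.Agent.MP_96693b_ag.RS (Loc LocOf exists_locOf_of_notMem)

namespace B1G

variable {N : ℕ} {f : Po N}

/-- A model that principalises the product principalises the factors. -/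
theorem poly (hE : EOut) {W : Mod N} (hW : W.OK f) (hf : f ≠ 0) {κ : Type} [Fintype κ]
    {P : κ → Finset (Po N)} {r : κ → ℕ} (hr : ∀ i, f ^ r i ∈ P i) {c : W.J → ℤ}
    (hmem : ∀ x : κ → Po N, (∀ i, x i ∈ P i) → ip N (∏ i, x i) ∈ W.H c)
    (h2 : ∀ V, Ov V → ∃ x : κ → Po N, (∀ i, x i ∈ P i) ∧ W.Gen V c (ip N (∏ i, x i))) (i : κ) :
    ∃ c, (∀ p ∈ P i, ip N p ∈ W.H c) ∧ ∀ V, Ov V → ∃ p ∈ P i, W.Gen V c (ip N p) := by
  classical
  have B := hE.bas N f W hW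
  have hN := hE.nb N f W hW
  have hex : ∀ j, ∃ p ∈ (P i).filter (· ≠ 0), ∀ q ∈ (P i).filter (· ≠ 0),
      (W.v j).v (ip N p) ≤ (W.v j).v (ip N q) := fun j =>
    exists_min_image _ _ ⟨_, mem_filter.2 ⟨hr i, pow_ne_zero _ hf⟩⟩
  choose m hm hm' using hex
  refine ⟨fun j => -(W.v j).v (ip N (m j)), fun p hp => (hE.h N f W hW _ _).2
    ⟨⟨0, p, by simp⟩, fun j => ?_⟩, fun V hV => ?_⟩
  · by_cases h : p = 0
    · exact Or.inl (by rw [h, map_zero])
    · exact Or.inr (by simpa using hm' j p (mem_filter.2 ⟨hp, h⟩))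
  obtain ⟨b, hb⟩ := hW.cov V hV
  obtain ⟨x, hx, hgV⟩ := h2 V hV
  have hu := hgV b hb
  have hx0 : ip N (∏ i, x i) ≠ 0 := left_ne_zero_of_mul hu.1
  have e1 : ∀ y : κ → Po N, ∏ i, y i = y i * ∏ k ∈ univ.erase i, y k := fun y =>
    (mul_prod_erase _ _ (mem_univ i)).symm
  rw [e1, map_mul] at hx0
  have key : ∀ p ∈ P i, Lc (W.S.A b) V (ip N p / ip N (x i)) := fun p hp => by
    have h3 := (hN.H _ _).1 (hmem (Function.update x i p) fun k => by
      by_cases hk : k = i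
      · subst hk; rwa [Function.update_self]
      · rw [Function.update_of_ne hk]; exact hx k) b
    refine ⟨_, (hN.H _ _).1 (hmem x hx) b, hu, ?_⟩
    have e2 : ∏ k ∈ univ.erase i, Function.update x i p k = ∏ k ∈ univ.erase i, x k :=
      prod_congr rfl fun k hk => Function.update_of_ne (ne_of_mem_erase hk) p x
    rw [e1, Function.update_self, e2, map_mul] at h3
    have : ip N (∏ i, x i) * W.mon b c * (ip N p / ip N (x i)) =
        ip N p * ip N (∏ k ∈ univ.erase i, x k) * W.mon b c := by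
      have := left_ne_zero_of_mul hx0
      rw [e1, map_mul]; field_simp
    rw [this]
    exact h3
  have hxi := left_ne_zero_of_mul hx0
  obtain ⟨U, hU, e⟩ := hW.ord b
  refine ⟨x i, hx i, B.gen_congr V _ _ _ (fun j hj => ?_) (hE.mono N f W hW b V _
    (ip N (f ^ r i) / ip N (x i) * ((U⁻¹ : (KK N)ˣ) : KK N) ^ r i) (r i • W.aa) hb
    (Lc.of_mem (hW.pol b _)) ((key _ (hr i)).mul (Lc.of_mem (pow_mem hU.2 _))) ?_)⟩
  · obtain ⟨a1, -, -, a2⟩ := B.in_v b V j hb hj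
    have h3 := (key _ (mem_filter.1 (hm j)).1).mem a1 fun s hs h => (W.v j).un_O.2 ⟨h.1, a2 s hs h⟩
    have h4 : ip N (m j) ≠ 0 := M3B1.ip_ne (mem_filter.1 (hm j)).2
    have h5 := hm' j _ (mem_filter.2 ⟨hx i, fun h => hxi (by rw [h, map_zero])⟩)
    have h6 := h3.resolve_left (div_ne_zero h4 hxi)
    rw [(W.v j).div h4 hxi] at h6
    omega
  · rw [B.mon_nsmul, map_pow, e, Units.val_inv_eq_inv_val, mul_pow, inv_pow]
    have := pow_ne_zero (r i) U.ne_zero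
    field_simp

/-- A closed point in the closure of the centre of a valuation ring. -/
theorem exists_pt {B : Subalgebra ℂ (KK N)} (hB : B.FG) {V : Vl N} (hV : ∀ x ∈ B, x ∈ V) :
    ∃ L, LocOf B L ∧ ∀ q ∈ B, L.ev q ≠ 0 → Un V q := by
  let J : Ideal B :=
    { carrier := {a | ¬Un V a}
      add_mem' := fun {a b} ha hb => not_un_add (hV _ a.2) (hV _ b.2) ha hb
      zero_mem' := not_un_zero
      smul_mem' := fun c a ha => not_un_mul (hV _ c.2) (hV _ a.2) ha }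
  obtain ⟨L, hL, h0, -⟩ := exists_locOf_of_notMem hB (I := J) (r := 1) fun ⟨n, hn⟩ => by
    rw [one_pow] at hn
    exact hn un_one
  exact ⟨L, hL, fun q hq h => not_not.1 fun h1 => h (h0 ⟨q, hq⟩ h1)⟩

/-- A model that principalises `W` dominates the blow-up of `W`. -/
theorem rd (hE : EOut) {W : Set (Po N)} (hW : W.Finite) {M M' : Mod N}
    (hp : ∀ w ∈ W, ∀ Q, LocOf (M3B1.ch W w) Q → Q ∈ M.pts) (hM' : M'.OK f) {c : M'.J → ℤ}
    (h1 : ∀ w ∈ W, ip N w ∈ M'.H c) (h2 : ∀ V, Ov V → ∃ w ∈ W, M'.Gen V c (ip N w)) :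
    Rd M' M := by
  intro b V hb
  have B := hE.bas N f M' hM'
  have hN := hE.nb N f M' hM'
  obtain ⟨w, hw, hg⟩ := h2 V (B.ov b V hb)
  have hu := hg b hb
  have h3 : M3B1.ch W w ≤ LA (M'.S.A b) V :=
    M3B1.ch_le.2 ⟨fun p => Lc.of_mem (hM'.pol b p), fun v hv => by
      refine ⟨_, (hN.H _ _).1 (h1 w hw) b, hu, ?_⟩
      have := left_ne_zero_of_mul hu.1
      rw [show ip N w * M'.mon b c * (ip N v / ip N w) = ip N v * M'.mon b c by field_simp]
      exact (hN.H _ _).1 (h1 v hv) b⟩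
  obtain ⟨L, hL, h4⟩ := exists_pt (M3B1.ch_fg (w := w) hW) fun x hx => Lc.mem' (h3 hx) hb
  obtain ⟨a, ha⟩ := hp w hw L hL
  refine ⟨a, fun g hg => ?_⟩
  obtain ⟨p, hp, q, hq, h5, h6⟩ := hL.frac g (ha.le hg)
  have h7 := h4 q hq h5
  rw [eq_div_of_mul_eq h7.1 h6, div_eq_mul_inv]
  exact Lc.mul (h3 hp) (Lc.inv (h3 hq) h7)

end B1G

open B1G in
theorem sb1g (hE : EOut) (h0 : SB1R) : SB1G := by
  classical
  intro F _ _ _ N f W M κ _ G hff hM hG hr
  have hf : f ≠ 0 := fun h => RB1.f_ne hM.ok (by rw [h, map_zero])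
  obtain ⟨s, hs⟩ := hM.good.rad
  choose r hr using hr
  let P : Option κ → Finset (Po N) := fun o => o.elim (insert (f ^ s) hM.good.fin.toFinset) G
  have hP : ∀ o, f ^ o.elim s r ∈ P o := fun o => by
    cases o with
    | none => exact mem_insert_self _ _
    | some i => exact hr i
  have hF : ∀ o, ∀ g ∈ P o, FxP F g := fun o g hg => by
    cases o with
    | none =>
      rcases mem_insert.1 hg with rfl | hg
      · exact fun σ => by rw [map_pow, hff σ]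
      · exact hM.fx g (hM.good.fin.mem_toFinset.1 hg)
    | some i => exact hG i g hg
  obtain ⟨W', M', hM', c, hc⟩ := h0 F N f ((Fintype.piFinset P).image fun x => ∏ i, x i) hf hff
    (fun g hg => by
      obtain ⟨x, hx, rfl⟩ := mem_image.1 hg
      intro σ
      rw [map_prod]
      exact prod_congr rfl fun i _ => hF i _ (Fintype.mem_piFinset.1 hx i) σ)
    ⟨∑ o : Option κ, o.elim s r, mem_image.2 ⟨fun o => f ^ o.elim s r, Fintype.mem_piFinset.2 hP,
      prod_pow_eq_pow_sum _ _ _⟩⟩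
  obtain ⟨h1, h2⟩ := hc _ coe_image
  have h := poly hE hM'.ok hf hP (c := c) (fun x hx => h1 _
    (mem_image_of_mem _ (mem_image_of_mem _ (Fintype.mem_piFinset.2 hx)))) fun V hV => by
      obtain ⟨_, hg, h3⟩ := h2 V hV
      obtain ⟨_, hy, rfl⟩ := mem_image.1 hg
      obtain ⟨x, hx, rfl⟩ := mem_image.1 hy
      exact ⟨x, Fintype.mem_piFinset.1 hx, h3⟩
  refine ⟨W', M', hM', ?_, fun i => ?_⟩
  · obtain ⟨c, a1, a2⟩ := h none
    have a3 : ∀ w ∈ W, ip N w ∈ M'.H c := fun w hw =>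
      a1 w (mem_insert_of_mem (hM.good.fin.mem_toFinset.2 hw))
    refine hE.mk2 N f M' M hM'.ok hM.ok (rd hE hM.good.fin
      (fun w hw Q hQ => (hM.pts Q).2 ⟨w, hw, hQ⟩) hM'.ok a3 fun V hV => ?_)
    obtain ⟨g, hg, a4⟩ := a2 V hV
    rcases mem_insert.1 hg with rfl | hg
    swap
    · exact ⟨g, hM.good.fin.mem_toFinset.1 hg, a4⟩
    obtain ⟨b, hb⟩ := hM'.ok.cov V hV
    by_contra! a5
    have key : ∀ x ∈ Ideal.span W, ip N x * M'.mon b c ∈ V ∧ ¬Un V (ip N x * M'.mon b c) := by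
      intro x hx
      induction hx using Submodule.span_induction with
      | mem x hx =>
        exact ⟨a3 x hx V hV b hb, fun e => a5 x hx (((hE.bas N f M' hM'.ok).gen_iff b V c _ hb).2 e)⟩
      | zero => rw [map_zero, zero_mul]; exact ⟨zero_mem _, not_un_zero⟩
      | add x y _ _ hx hy =>
        rw [map_add, add_mul]
        exact ⟨add_mem hx.1 hy.1, not_un_add hx.1 hy.1 hx.2 hy.2⟩
      | smul a x _ hx =>
        rw [smul_eq_mul, map_mul, mul_assoc]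
        exact ⟨mul_mem (hV a) hx.1, not_un_mul (hV a) hx.1 hx.2⟩
    exact (key _ hs).2 (a4 b hb)
  · obtain ⟨c, a1, a2⟩ := h (some i)
    refine ⟨c, fun T hT => ⟨fun g hg => ?_, fun V hV => ?_⟩⟩
    · obtain ⟨p, hp, rfl⟩ : g ∈ ip N '' _ := hT ▸ mem_coe.2 hg
      exact a1 p hp
    · obtain ⟨p, hp, a3⟩ := a2 V hV
      exact ⟨_, mem_coe.1 (hT ▸ ⟨p, hp, rfl⟩), a3⟩

end Pool.Agent.MP_5d9b3c_ag.P3
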