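import Pool.Agent.MP_96693b_ag.DR.RTow

/-! Principalisation compatible with a family of semilinear automorphisms: definitions. -/

namespace Pool.Agent.MP_5d9b3c_ag.P3R

open Pool.Agent.MP_96693b_ag.RS

noncomputable section

/-- a semilinear automorphism -/
structure Sy (K : Type) [Field K] [Algebra ℂ K] where
  c : ℂ ≃+* ℂ
  e : K ≃+* K
  map : ∀ a, e (algebraMap ℂ K a) = algebraMap ℂ K (c a)

variable {K : Type} [Field K] [Algebra ℂ K] {n : ℕ}

/-- the inverse -/
def Sy.symm (s : Sy K) : Sy K where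
  c := s.c.symm
  e := s.e.symm
  map := fun a => by
    apply s.e.injective
    rw [RingEquiv.apply_symm_apply, s.map, RingEquiv.apply_symm_apply]

/-- the image of a marked set -/
def Sy.ms (s : Sy K) (S : Set (K × ℕ)) : Set (K × ℕ) := (fun p => (s.e p.1, p.2)) '' S

/-- the image of a boundary -/
def Sy.bd (s : Sy K) (Y : ℕ → Set K) : ℕ → Set K := fun i => s.e '' Y i

/-- `L'` is the image of `L` -/
structure Cj (s : Sy K) (L L' : Loc K) : Prop where
  mem : ∀ g, s.e g ∈ L'.O ↔ g ∈ L.O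
  ev : ∀ g, L'.ev (s.e g) = s.c (L.ev g)

/-- a family of semilinear automorphisms closed under inversion -/
structure Fam (K : Type) [Field K] [Algebra ℂ K] where
  S : Set (Sy K)
  symm : ∀ s ∈ S, s.symm ∈ S

namespace Fam

variable (Γ : Fam K)

/-- the linear span of `U` is stable -/
def Sp (U : Set K) : Prop := ∀ s ∈ Γ.S, ∀ x ∈ U, s.e x ∈ Submodule.span ℂ U

/-- a stable set of points -/
def St {M : Model K n} (A : Set M.P) : Prop :=
  ∀ s ∈ Γ.S, ∀ a b : M.P, Cj s (M.loc a) (M.loc b) → a ∈ A → b ∈ A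

/-- a stable object -/
def So {M : Model K n} (S : M.Obj) : Prop :=
  ∀ s ∈ Γ.S, ∀ a b : M.P, Cj s (M.loc a) (M.loc b) → ∀ p ∈ S a, (s.e p.1, p.2) ∈ S b

/-- stable model, boundary and object -/
structure Inv (M : Model K n) (E : ℕ → Set M.P) (S : M.Obj) : Prop where
  sp : Γ.Sp M.U
  bd : ∀ i, Γ.St (E i)
  ob : Γ.So S

end Fam

/-- a blow-up with stable centre and stable linear system -/
structure IsBlG (Γ : Fam K) (M : Model K n) (C : Set M.P) (M' : Model K n) : Prop where
  bl : IsBl M C M'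
  st : Γ.St C
  ex : ∃ F, IsBlBy M C M' F ∧ Γ.Sp F

/-- the object can be resolved by admissible stable blow-ups -/
inductive ResG (Γ : Fam K) : (M : Model K n) → ℕ → (ℕ → Set M.P) → M.Obj → Prop
  | done {M : Model K n} {k : ℕ} {E : ℕ → Set M.P} {S : M.Obj} :
      M.cos S = ∅ → ResG Γ M k E S
  | step {M : Model K n} {k : ℕ} {E : ℕ → Set M.P} {S : M.Obj} (C : Set M.P)
      (M' : Model K n) (h : IsBlG Γ M C M') : M.Adm E S C →
      ResG Γ M' (k + 1) (h.bl.bd k E) (h.bl.tr S) → ResG Γ M k E S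

/-- towers of stable blow-ups with smooth centres over `B` -/
inductive TwrG (Γ : Fam K) : (M : Model K n) → Set M.P → Model K n → Prop
  | refl (M : Model K n) (B : Set M.P) : TwrG Γ M B M
  | step {M M₁ M' : Model K n} {B : Set M.P} (C : Set M.P) (h : IsBlG Γ M C M₁) :
      M.Sm C → C ⊆ B → TwrG Γ M₁ (h.bl.π ⁻¹' B) M' → TwrG Γ M B M'

end

end Pool.Agent.MP_5d9b3c_ag.P3R
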