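import Pool.Agent.MP_5d9b3c_ag.P3R.Glo
import Pool.Agent.MP_ee8c61_ag.M3E.Kit
import Pool.Agent.MP_ee8c61_ag.M3B1.Dom
import Pool.Agent.MP_ee8c61_ag.M3B1.Dvr
import Pool.Agent.MP_ee8c61_ag.M3B1.Sys

/-! Conjugate components of a stable boundary do not meet. -/

namespace Pool.Agent.MP_5d9b3c_ag.P3R

open Pool.Agent.MP_96693b_ag.RS Filter Set
open Pool.Agent.MP_ee8c61_ag
open M3 (Po KK ip Un DV Lc LA)

section gen

variable {K : Type} [Field K] [Algebra ℂ K] {n : ℕ} {o o' : DV K} {L : Loc K}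

/-- the point lies on the divisor -/
def On (L : Loc K) (o : DV K) : Prop := ∀ g ∈ L.O, g ∈ o.F 0

/-- the valuation ring of `o` is a localisation of `B` -/
structure LocV (B : Subalgebra ℂ K) (o : DV K) : Prop where
  le : ∀ g ∈ B, g ∈ o.O
  loc : ∀ x ∈ o.O, Lc B o.O x

theorem On.un (h : On L o) {t : K} (ht : L.ev t ≠ 0) : Un o.O t :=
  ⟨Loc.ne_zero_of_ev ht, h t (Loc.mem_of_ev ht), h _ (L.inv_mem t (Loc.mem_of_ev ht) ht)⟩

omit [Algebra ℂ K] in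
theorem not_un_of_F {g : K} (h : g ∈ o.F 1) : ¬Un o.O g := fun hu => by
  obtain ⟨h0, h1⟩ := o.un_O.1 hu
  have := h.resolve_left h0
  omega

omit [Algebra ℂ K] in
theorem F_of_not_un {g : K} (hg : g ∈ o.O) (h : ¬Un o.O g) : g ∈ o.F 1 := by
  by_cases h0 : g = 0
  · exact Or.inl h0
  · have h1 : 0 ≤ o.v g := hg.resolve_left h0
    exact Or.inr (by_contra fun h2 => h (o.un_O.2 ⟨h0, by omega⟩))

theorem exists_on {B : Subalgebra ℂ K} (hB : B.FG) (h : LocV B o) {T : Set K} (hT : T.Finite)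
    (hu : ∀ t ∈ T, Un o.O t) : ∃ L, LocOf B L ∧ On L o ∧ ∀ t ∈ T, L.ev t ≠ 0 := by
  obtain ⟨r, hr, hru, h1⟩ := RZar_prod (B := B) hT (Un o.O) M3.un_one
    (fun _ _ _ _ h1 h2 => h1.mul h2) fun t ht => by
      obtain ⟨q, hq, h2, h3⟩ := h.loc t (hu t ht).2.1
      exact ⟨q * t, h3, q, hq, h2.mul (hu t ht), h2, mul_comm _ _⟩
  let I : Ideal B :=
    { carrier := {a | (a : K) ∈ o.F 1}
      add_mem' := fun {a b} ha hb => show (a : K) + b ∈ o.F 1 from add_mem ha hb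
      zero_mem' := zero_mem (o.F 1)
      smul_mem' := fun c a ha => by
        have := o.F_mul (h.le c c.2) ha
        rwa [zero_add] at this }
  have h2 : (⟨r, hr⟩ : B) ∉ I.radical := by
    rintro ⟨m, hm⟩
    exact not_un_of_F (show r ^ m ∈ o.F 1 from hm) (hru.pow m)
  obtain ⟨L, hL, h3, h4⟩ := exists_locOf_of_notMem hB h2
  refine ⟨L, hL, fun g hg => ?_, h1 L hL.le h4⟩
  obtain ⟨p, hp, q, hq, h5, h6⟩ := hL.frac g hg
  have h7 : Un o.O q := by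
    by_contra h8
    exact h5 (h3 ⟨q, hq⟩ (F_of_not_un (h.le q hq) h8))
  exact h7.mem_iff.1 (h6 ▸ h.le p hp)

variable {M : Model K n}

/-- `o` is a divisor of the model -/
def Dvo (M : Model K n) (o : DV K) : Prop :=
  ∃ B : Subalgebra ℂ K, B.FG ∧ (∀ L, LocOf B L → IsPt M.U L) ∧ LocV B o

theorem Dvo.freq (h : Dvo M o) {a b : M.P} (ha : On (M.loc a) o) (hb : On (M.loc b) o)
    {P Q : M.P → Prop} (hP : ∀ᶠ x in zn a, P x) (hQ : ∀ᶠ x in zn b, Q x) :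
    ∃ x, On (M.loc x) o ∧ P x ∧ Q x := by
  obtain ⟨B, h1, h2, h3⟩ := h
  obtain ⟨T, hT, a1, a2⟩ := eventually_zn.1 hP
  obtain ⟨T', hT', b1, b2⟩ := eventually_zn.1 hQ
  obtain ⟨L, hL, h4, h5⟩ := exists_on h1 h3 (hT.union hT') fun t ht =>
    ht.elim (fun ht => ha.un (a1 t ht)) fun ht => hb.un (b1 t ht)
  exact ⟨⟨L, h2 L hL⟩, h4, a2 _ fun t ht => h5 t (Or.inl ht), b2 _ fun t ht => h5 t (Or.inr ht)⟩

theorem lc_chart {U : Set K} {u v : K} (hu : u ∈ U) (hv : v ∈ U) (u0 : u ≠ 0) (v0 : v ≠ 0)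
    {V : ValuationSubring K} (h1 : ∀ g ∈ chA U u, g ∈ V) (h2 : ∀ g ∈ chA U v, g ∈ V) {p : K}
    (hp : p ∈ chA U v) : Lc (chA U u) V p := by
  obtain ⟨d, hd⟩ := exists_pow_chA v0 hv hp
  have h3 : Un V (v / u) := ⟨div_ne_zero v0 u0, h1 _ (div_mem_chA hv), by
    rw [inv_div]; exact h2 _ (div_mem_chA hu)⟩
  exact ⟨(v / u) ^ d, pow_mem (div_mem_chA hv) d, h3.pow d, mul_comm p _ ▸ hd d le_rfl u u0⟩

theorem Dvo.locV (h : Dvo M o) {u : K} (hu : u ∈ M.U) (u0 : u ≠ 0)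
    (h0 : ∀ g ∈ chA M.U u, g ∈ o.O) : LocV (chA M.U u) o := by
  obtain ⟨B, h1, h2, h3⟩ := h
  obtain ⟨L, hL, h4, -⟩ := exists_on h1 h3 finite_empty fun _ h => h.elim
  obtain ⟨v, hv, v0, h5⟩ := h2 L hL
  have h6 : ∀ g ∈ L.O, Lc (chA M.U u) o.O g := fun g hg => by
    obtain ⟨p, hp, q, hq, a1, a2⟩ := h5.frac g hg
    have a3 := fun x (hx : x ∈ chA M.U v) =>
      lc_chart hu hv u0 v0 h0 (fun g hg => h4 g (h5.le hg)) hx
    rw [eq_div_of_mul_eq (Loc.ne_zero_of_ev a1) a2, div_eq_mul_inv]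
    exact (a3 p hp).mul ((a3 q hq).inv (h4.un a1))
  refine ⟨h0, fun x hx => ?_⟩
  obtain ⟨s, hs, a1, a2⟩ := h3.loc x hx
  have : x = s⁻¹ * (s * x) := (inv_mul_cancel_left₀ a1.1 x).symm
  rw [this]
  exact ((h6 s (hL.le hs)).inv a1).mul (h6 _ (hL.le a2))

theorem Dvo.locV_pt (h : Dvo M o) {b : M.P} (hb : On (M.loc b) o) : LocV (M.loc b).O o := by
  obtain ⟨u, hu, u0, h1⟩ := Model.isPt b
  have h2 := h.locV hu u0 fun g hg => hb g (h1.le hg)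
  exact ⟨hb, fun x hx => let ⟨s, a1, a2, a3⟩ := h2.loc x hx; ⟨s, h1.le a1, a2, h1.le a3⟩⟩

/-- a divisor whose ideal contains the ideal of a closed set at one point lies in the set -/
theorem Dvo.sub (h : Dvo M o) {D : Set M.P} (hD : ZClosed D) {a : M.P} (ha : On (M.loc a) o)
    (hy : ∀ y ∈ M.vanK D a, y ∈ o.F 1) {b : M.P} (hb : On (M.loc b) o) : b ∈ D := by
  by_contra hn
  obtain ⟨T, hT, h1⟩ := Model.exists_fin_vanK (M := M) D a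
  obtain ⟨x, h2, ⟨h3, h4⟩, h5⟩ := h.freq ha hb
    ((Model.sp_mem_iff hD hT (zn_self h1).2.symm).and h1) (hD b hn)
  refine h5 (h3.2 fun t ht => ⟨(h4.1 ht).1, by_contra fun h6 => ?_⟩)
  exact not_un_of_F (hy t ((zn_self h1).1 ht)) (h2.un h6)

theorem Dvo.van (h : Dvo M o) {D : Set M.P} (hD : ∀ b, On (M.loc b) o → b ∈ D) {a : M.P}
    (ha : On (M.loc a) o) {y : K} (hy : y ∈ M.vanK D a) : y ∈ o.F 1 := by
  refine F_of_not_un (ha y hy.1) fun hu => ?_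
  obtain ⟨B, h1, h2, h3⟩ := h
  obtain ⟨T, hT, a1, a2⟩ := eventually_zn.1 hy.2
  obtain ⟨L, hL, h4, h5⟩ := exists_on h1 h3 (hT.insert y) fun t ht =>
    ht.elim (fun ht => ht ▸ hu) fun ht => ha.un (a1 t ht)
  exact h5 y (Or.inl rfl) (a2 ⟨L, h2 L hL⟩ (fun t ht => h5 t (Or.inr ht)) (hD _ h4))

variable {s : Sy K} {Γ : Fam K}

theorem F_tr (h : ∀ g, o'.v (s.e g) = o.v g) {m : ℤ} {g : K} : s.e g ∈ o'.F m ↔ g ∈ o.F m := by
  rw [DV.mem_F, DV.mem_F, h, map_eq_zero_iff _ s.e.injective]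

theorem un_tr (h : ∀ g, o'.v (s.e g) = o.v g) {g : K} : Un o'.O (s.e g) ↔ Un o.O g := by
  rw [DV.un_O, DV.un_O, h, map_ne_zero_iff _ s.e.injective]

theorem LocV.tr (h : ∀ g, o'.v (s.e g) = o.v g) {B : Subalgebra ℂ K} (H : LocV B o) :
    LocV (s.sa B) o' := by
  refine ⟨fun g hg => ?_, fun x hx => ?_⟩
  · rw [← s.e_symm_e g]
    exact (F_tr h).2 (H.le _ hg)
  · obtain ⟨y, rfl⟩ := s.surj x
    obtain ⟨t, a1, a2, a3⟩ := H.loc y ((F_tr h).1 hx)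
    exact ⟨s.e t, by rwa [Sy.mem_sa, Sy.symm_e_e], (un_tr h).2 a2,
      by rwa [← map_mul, Sy.mem_sa, Sy.symm_e_e]⟩

theorem Sy.symm_sa (s : Sy K) (B : Subalgebra ℂ K) : s.symm.sa (s.sa B) = B :=
  SetLike.ext fun x => by rw [Sy.mem_sa, Sy.mem_sa, Sy.symm_symm, Sy.symm_e_e]

theorem Sy.sa_fg (s : Sy K) {B : Subalgebra ℂ K} (h : B.FG) : (s.sa B).FG := by
  obtain ⟨X, hX, rfl⟩ := Subalgebra.fg_def.1 h
  exact Subalgebra.fg_def.2 ⟨_, hX.image s.e, (s.sa_adjoin X).symm⟩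

theorem Dvo.tr (hU : Γ.Sp M.U) (hs : s ∈ Γ.S) (h : ∀ g, o'.v (s.e g) = o.v g) (H : Dvo M o) :
    Dvo M o' := by
  obtain ⟨B, h1, h2, h3⟩ := H
  refine ⟨s.sa B, s.sa_fg h1, fun L hL => ?_, h3.tr h⟩
  have h4 := (s.symm.cj_loc L).locOf hL
  rw [Sy.symm_sa] at h4
  exact hU.isPt hs (s.symm.cj_loc L).symm (h2 _ h4)

theorem LocV.eq {B : Subalgebra ℂ K} (H : LocV B o) {z π : K} {d : DV K} (hd : M3B1.IsDV B z d)
    (hz : z ∈ o.F 1) (hπ : o.v π = 1) : o = d := by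
  refine M3B1.dv_le_eq hπ hd.one fun x hx => (H.loc x hx).mem hd.le fun t ht hu => ?_
  by_contra h1
  have h2 := H.le _ (hd.div t ht (F_of_not_un (hd.le t ht) h1))
  have h3 := o.F_mul h2 hz
  rw [inv_mul_cancel_right₀ hd.ne, zero_add] at h3
  exact not_un_of_F h3 hu

end gen

variable {N : ℕ} {M : Model (KK N) N} {Γ : Fam (KK N)} {s : Sy (KK N)} {o o' : DV (KK N)}
  {k : ℕ} {E : ℕ → Set M.P}

theorem sep_pt (hU : Γ.Sp M.U) (hE : M.Snc k E) (hB : ∀ i, Γ.St (E i)) (hs : s ∈ Γ.S)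
    (h : ∀ g, o'.v (s.e g) = o.v g) (ho : Dvo M o) {π : KK N} (hπ : o.v π = 1) {b : M.P}
    (hb : On (M.loc b) o) (hb' : On (M.loc b) o') {i : ℕ} (hy : ∀ y ∈ M.Y E b i, y ∈ o.F 1) :
    o = o' := by
  have ho' := ho.tr hU hs h
  have h1 : ∀ x, On (M.loc x) o → x ∈ E i := fun x hx => ho.sub (hE.closed i) hb hy hx
  have h2 : ∀ x, On (M.loc x) o' → x ∈ E i := fun x hx => by
    obtain ⟨a, ha⟩ := hU.pt' hs x
    exact hB i s hs a x ha (h1 a fun g hg => (F_tr h).1 (hx _ ((ha.mem g).2 hg)))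
  obtain ⟨κ, σ, hκ⟩ := hE.adp b
  obtain ⟨l, hl⟩ := LInv_some hκ fun h0 => (hE.span_eq_one i).1 h0 (h1 b hb)
  have h3 : κ.x l ∈ M.vanK (E i) b := by
    have h4 := hκ.span i
    rw [hl] at h4
    exact Model.mem_span_vanK.1 (show κ.x l ∈ (M.loc b).span (M.Y E b i) from
      h4 ▸ Loc.subset_span rfl)
  obtain ⟨d, hd⟩ := M3B1.rowDVR _ (M.loc b).O (κ.x l) (hκ.crd.x_mem l) (M.loc b).noeth
    (fun x => let ⟨p, hp, q, hq, q0, e⟩ := Model.frac b x; ⟨q, hq, q0, mul_comm x q ▸ e ▸ hp⟩)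
    (M3B1.prime_x hκ.crd l)
  exact ((ho.locV_pt hb).eq hd (ho.van h1 hb h3) hπ).trans
    ((ho'.locV_pt hb').eq hd (ho'.van h2 hb' h3) ((h π).trans hπ)).symm

end Pool.Agent.MP_5d9b3c_ag.P3R
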