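import Pool.Agent.MP_5d9b3c_ag.P3R.Res
import Pool.Agent.MP_5d9b3c_ag.P3R.Sep

/-! Principalisation on affine space by a blow-up that is defined by invariant polynomials. -/

namespace Pool.Agent.MP_5d9b3c_ag.P3R

open Pool.Agent.MP_96693b_ag.RS Filter Set MvPolynomial
open Pool.Agent.MP_ee8c61_ag
open M3 (Po KK ip Un DV Lc)
open M3B1

theorem twG {K : Type} [Field K] [Algebra ℂ K] {n : ℕ} {Γ : Fam K} {M M' : Model K n}
    {B : Set M.P} (h : TwrG Γ M B M') : ∃ (W : Set K) (d : ℕ), W.Finite ∧ Γ.Sp W ∧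
    (∀ w ∈ W, w ∈ Submodule.span ℂ M.U ^ d) ∧
    M'.U = image2 (· * ·) M.U W ∧ ∀ b ∉ B, ∀ u ∈ M.U, u ≠ 0 → chA M.U u ≤ (M.loc b).O →
      ∃ w ∈ W, (M.loc b).ev (w / u ^ d) ≠ 0 := by
  induction h with
  | refl M B =>
    exact ⟨{1}, 0, finite_singleton _, Fam.Sp.of_fix (by simp),
      by simp [Submodule.one_le.1 le_rfl], by simp,
      fun b _ u _ _ _ => ⟨1, rfl, by simp [Loc.ev_one]⟩⟩
  | @step M M₁ M' B C hbG hC hCB _ ih =>
    have h := hbG.bl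
    obtain ⟨W, d, hW, hsp, hWd, hU, hb⟩ := ih
    obtain ⟨G, hG, hGs⟩ := hbG.ex
    obtain ⟨d0, h1, h2⟩ := hG.hom
    have hle : Submodule.span ℂ M₁.U ≤ Submodule.span ℂ M.U ^ (1 + d0) := by
      rw [Submodule.span_le, hG.eq]
      rintro _ ⟨u, hu, g, hg, rfl⟩
      rw [pow_add, pow_one]
      exact Submodule.mul_mem_mul (Submodule.subset_span hu) (h1 g hg)
    refine ⟨image2 (· * ·) G W, d0 + (1 + d0) * d, hG.fin.image2 _ hW, hGs.mul hsp, ?_, ?_, ?_⟩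
    · rintro _ ⟨g, hg, w, hw, rfl⟩
      rw [pow_add, pow_mul]
      exact Submodule.mul_mem_mul (h1 g hg) (pow_le_pow_left' hle d (hWd w hw))
    · rw [hU, hG.eq]
      exact image2_assoc mul_assoc
    · intro b hbB u hu hu0 hub
      have hbC : b ∉ C := fun hc => hbB (hCB hc)
      obtain ⟨b', rfl⟩ := h.exists_off hC.closed hbC
      have hl := h.loc_off hC.closed hbC
      have h3 := (h2 _ u hu hu0 hub).trans ((Model.span_vanK_eq_one hC.closed).2 hbC)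
      have h4 : ∀ g ∈ G, g / u ^ d0 ∈ (M.loc (h.π b')).O := fun g hg =>
        Loc.mem_one.1 (h3 ▸ Loc.subset_span ⟨g, hg, rfl⟩)
      have h5 : ∃ g ∈ G, (M.loc (h.π b')).ev (g / u ^ d0) ≠ 0 := by
        by_contra! h6
        refine Loc.m_ne_one (L := M.loc (h.π b')) (le_antisymm Loc.m_le_one ?_)
        rw [← h3]
        refine Loc.span_le.2 ?_
        rintro _ ⟨g, hg, rfl⟩
        exact ⟨h4 g hg, h6 g hg⟩
      obtain ⟨g, hg, h6⟩ := h5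
      have hg0 : g ≠ 0 := by
        rintro rfl
        exact h6 (by rw [zero_div, Loc.ev_zero])
      have h7 : chA M₁.U (u * g) ≤ (M₁.loc b').O := by
        rw [hl, hG.eq]
        refine chA_mul_le hub fun g' hg' => ?_
        have : g' / g = g' / u ^ d0 * (g / u ^ d0)⁻¹ := by field_simp
        rw [this]
        exact mul_mem (h4 g' hg') ((M.loc _).inv_mem _ (h4 g hg) h6)
      obtain ⟨w, hw, h8⟩ := hb b' hbB (u * g) (hG.eq ▸ mem_image2_of_mem hu hg)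
        (mul_ne_zero hu0 hg0) h7
      rw [hl] at h8
      refine ⟨g * w, mem_image2_of_mem hg hw, ?_⟩
      have : g * w / u ^ (d0 + (1 + d0) * d) = (g / u ^ d0) ^ (d + 1) * (w / (u * g) ^ d) := by
        simp only [div_pow, mul_pow, ← pow_mul, pow_add, add_mul, mul_add, one_mul, mul_one, pow_one]
        field_simp
      rw [this, (M.loc _).ev_mul _ (pow_mem (h4 g hg) _) _ (Loc.mem_of_ev h8), Loc.ev_pow (h4 g hg)]
      exact mul_ne_zero (pow_ne_zero _ h6) h8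

variable {N : ℕ}

/-- Conjugate divisors of the blow-up of `W` over `f = 0` do not meet. -/
def Sep (Γ : Fam (KK N)) (f : Po N) (W : Set (Po N)) : Prop :=
  ∀ s ∈ Γ.S, ∀ o o' : DV (KK N), (∀ g, o'.v (s.e g) = o.v g) → 0 < o.v (ip N f) →
    (∃ π, o.v π = 1) → (∃ w ∈ W, LocV (ch W w) o) →
    ∀ w ∈ W, ∀ L, LocOf (ch W w) L → On L o → On L o' → o = o'

theorem exists_bd {L : Loc (KK N)} {Y : ℕ → Set (KK N)} {k : ℕ} {μ : KK N} {o : DV (KK N)}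
    (hO : On L o) (hY : ∀ i, ∀ y ∈ Y i, y ∈ L.O) (h : Mon L Y k μ) (h1 : μ ∈ o.F 1) :
    ∃ i, ∀ y ∈ Y i, y ∈ o.F 1 := by
  obtain ⟨y, m, u, hy, -, hu, rfl⟩ := h
  by_contra hc
  push Not at hc
  refine not_un_of_F h1 ((hO.un hu).mul (M3.Un.prod _ fun i hi => M3.Un.pow ?_ _))
  have h2 := hy i (Finset.mem_range.1 hi)
  have h3 : y i ∈ L.O :=
    Loc.mem_O_of_le (Loc.span_le_one (hY i)) (h2 ▸ Loc.subset_span rfl)
  by_contra h4
  obtain ⟨z, hz, h5⟩ := hc i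
  obtain ⟨a, ha, rfl⟩ := Loc.mem_span_singleton.1
    (show z ∈ L.span {y i} from h2 ▸ Loc.subset_span hz)
  have := o.F_mul (hO a ha) (F_of_not_un (hO _ h3) h4)
  rw [zero_add] at this
  exact h5 this

theorem span_mul_congr {K : Type} [Field K] [Algebra ℂ K] {U W W' : Set K}
    (h : Submodule.span ℂ W' = Submodule.span ℂ W) :
    ∀ x ∈ image2 (· * ·) U W', x ∈ Submodule.span ℂ (image2 (· * ·) U W) := by
  rintro _ ⟨u, hu, w, hw, rfl⟩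
  rw [image2_mul, ← Submodule.span_mul_span]
  exact Submodule.mul_mem_mul (Submodule.subset_span hu) (h ▸ Submodule.subset_span hw)

theorem domG (Γ : Fam (KK N)) (Fx : KK N → Prop)
    (hD : ∀ W : Set (KK N), W.Finite → Γ.Sp W → ∃ W' : Set (KK N), W'.Finite ∧
      Submodule.span ℂ W' = Submodule.span ℂ W ∧ ∀ w ∈ W', Fx w)
    (hx : ∀ s ∈ Γ.S, ∀ l, s.e (ip N (X l)) = ip N (X l)) (f : Po N) (G : Set (Po N))
    (hf : f ≠ 0) (hG : G.Finite) (hr : f ∈ (Ideal.span G).radical)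
    (hfs : ∀ s ∈ Γ.S, s.e (ip N f) = ip N f)
    (hGs : ∀ s ∈ Γ.S, ∀ g ∈ G, ∃ g' ∈ G, s.e (ip N g) = ip N g') :
    ∃ W, Good f W ∧ Prin W G ∧ (∀ w ∈ W, Fx (ip N w)) ∧ Sep Γ f W := by
  obtain ⟨M, hM⟩ := rowP0 N
  choose dg hdg using exists_deg (N := N)
  obtain ⟨d, hd⟩ : ∃ d, ∀ g ∈ G, dg (f * g) ≤ d :=
    let ⟨d, h⟩ := (hG.image fun g => dg (f * g)).bddAbove
    ⟨d, fun g hg => h ⟨g, hg, rfl⟩⟩
  have hfd : ∀ g ∈ G, ∀ u, ip N (f * g) / u ^ d ∈ chA M.U u := fun g hg u =>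
    hM ▸ form_div (hdg _ d (hd g hg)) u
  let I : M.P → Set (KK N) := fun b =>
    {x | ∃ u ∈ M.U, u ≠ 0 ∧ chA M.U u ≤ (M.loc b).O ∧ ∃ g ∈ G, x = ip N (f * g) / u ^ d}
  obtain ⟨g0, hg0, hg00⟩ : ∃ g ∈ G, g ≠ 0 := by
    by_contra! h
    obtain ⟨m, hm⟩ := hr
    exact pow_ne_zero m hf (Ideal.mem_bot.1 ((Ideal.span_le (I := ⊥)).2 h hm))
  have hI : M.Coh I := by
    intro a
    obtain ⟨u, hu, h0, ha⟩ := Model.isPt a
    refine ⟨(fun g => ip N (f * g) / u ^ d) '' G, hG.image _, ⟨_, ⟨g0, hg0, rfl⟩,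
      div_ne_zero (ip_ne (mul_ne_zero hf hg00)) (pow_ne_zero _ h0)⟩, ?_⟩
    filter_upwards [Model.sp_chart hu h0 ha.le] with b hb
    refine ⟨?_, le_antisymm (Loc.span_le.2 ?_) (Loc.span_mono ?_)⟩
    · rintro _ ⟨g, hg, rfl⟩
      exact hb.le (hfd g hg u)
    · rintro _ ⟨u', -, h0', hb', g, hg, rfl⟩
      have : ip N (f * g) / u' ^ d = (u / u') ^ d * (ip N (f * g) / u ^ d) := by
        rw [div_pow]; field_simp
      rw [this]
      exact Loc.mul_mem_left (pow_mem (hb' (div_mem_chA hu)) _) (Loc.subset_span ⟨g, hg, rfl⟩)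
    · rintro _ ⟨g, hg, rfl⟩
      exact ⟨u, hu, h0, hb.le, g, hg, rfl⟩
  have hfix : ∀ s ∈ Γ.S, ∀ u ∈ M.U, s.e u = u := fun s hs u hu => by
    rcases hM ▸ hu with rfl | ⟨l, rfl⟩
    exacts [map_one _, hx s hs l]
  have hMs : Γ.Sp M.U := Fam.Sp.of_fix fun s hs u hu => (hfix s hs u hu).symm ▸ hu
  obtain ⟨M', hdm, k, E, tw, hE, hsp, hst, h⟩ := principaliseG hMs hI (by
    rintro s hs a b hc _ ⟨u, hu, u0, hua, g, hg, rfl⟩
    obtain ⟨g', hg', e⟩ := hGs s hs g hg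
    refine ⟨u, hu, u0, chA_le.2 fun x hx' => ?_, g', hg', ?_⟩
    · have := (hc.mem _).2 (hua (div_mem_chA hx'))
      rwa [map_div₀, hfix s hs x hx', hfix s hs u hu] at this
    · rw [map_div₀, map_pow, hfix s hs u hu, map_mul, map_mul, map_mul, hfs s hs, e])
  obtain ⟨W1, d', hW1, hW1s, hWd1, hU, hb1⟩ := twG tw
  obtain ⟨W0, hW0, hspan, hFx⟩ := hD W1 hW1 hW1s
  have hWd : ∀ w ∈ W0, w ∈ Submodule.span ℂ M.U ^ d' := fun w hw =>
    (Submodule.span_le.2 hWd1 : Submodule.span ℂ W1 ≤ _) (hspan ▸ Submodule.subset_span hw)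
  have hb : ∀ b ∉ {b | ∀ g ∈ I b, g ∈ (M.loc b).m}, ∀ u ∈ M.U, u ≠ 0 →
      chA M.U u ≤ (M.loc b).O → ∃ w ∈ W0, (M.loc b).ev (w / u ^ d') ≠ 0 := by
    intro b hb u hu u0 hub
    obtain ⟨w, hw, h1⟩ := hb1 b hb u hu u0 hub
    exact exists_unit hub (fun x hx' => form_div (hWd x hx') u)
      (hspan ▸ Submodule.subset_span hw) h1
  have hWr : ∀ x ∈ W0, x ∈ (ip N).range := fun x hx => form_sub (hM ▸ hWd x hx)
  have hpt : ∀ w ∈ {v | ip N v ∈ W0 ∧ v ≠ 0}, ∀ L, LocOf (ch {v | ip N v ∈ W0 ∧ v ≠ 0} w) L →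
      IsPt M'.U L := by
    intro w hw L hL
    rw [← chA_eq hWr hw.2 hw.1, ← hM] at hL
    rw [hU]
    exact isPt_of_span (span_mul_congr hspan) (span_mul_congr hspan.symm)
      ⟨_, mem_image2_of_mem (hM ▸ one_mem_U0) hw.1, mul_ne_zero one_ne_zero (ip_ne hw.2), hL⟩
  have key : ∀ b : M'.P, (∀ p, ip N p ∈ (M'.loc b).O) →
      (∃ κ, IsCrd (M'.loc b) κ ∧ MonAt (M'.loc b) κ (ip N f)) ∧
        (∃ g ∈ G, g ≠ 0 ∧ ∀ g' ∈ G, ip N g' / ip N g ∈ (M'.loc b).O) ∧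
        ∀ o, On (M'.loc b) o → 0 < o.v (ip N f) → ∃ i, ∀ y ∈ M'.Y E b i, y ∈ o.F 1 := by
    intro b hp
    obtain ⟨μ, hμ, h1, _, ⟨u, hu, hu0, hub, g, hg, rfl⟩, h2⟩ := h b
    obtain ⟨κ, σ, hκ⟩ := hE.adp b
    have h3 := Loc.ne_zero_of_ev h2
    have hμ0 : μ ≠ 0 := (div_ne_zero_iff.1 h3).2
    have hg' : g ≠ 0 := by
      rintro rfl
      exact h3 (by simp)
    have huO : u ∈ (M'.loc b).O := by
      obtain ⟨p, rfl⟩ := U0_sub (hM ▸ hu)
      exact hp p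
    have hui : (M'.loc b).ev u ≠ 0 := by
      have h4 : 1 / u ∈ (M'.loc b).O := hdm.loc_le b (hub (div_mem_chA (hM ▸ one_mem_U0)))
      have := (M'.loc b).ev_mul _ huO _ h4
      rw [mul_one_div_cancel hu0, Loc.ev_one] at this
      exact left_ne_zero_of_mul (this ▸ one_ne_zero)
    refine ⟨⟨κ, hκ.crd, MonAt.of_mul hκ.crd (hp f) (hp g) ?_⟩, ⟨g, hg, hg', fun g' hg'' => ?_⟩,
      fun o hO hv => exists_bd hO (fun i y hy => Model.vanK_mem hy) hμ ?_⟩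
    · have : ip N f * ip N g = u ^ d * (ip N (f * g) / u ^ d / μ * μ) := by
        rw [map_mul]; field_simp
      rw [this]
      exact ((monAt_unit hui).pow d).mul ((monAt_unit h2).mul (monAt_of_mon hκ hμ))
    · have : ip N g' / ip N g = ip N (f * g') / u ^ d / μ / (ip N (f * g) / u ^ d / μ) := by
        have := ip_ne hf
        have := ip_ne hg'
        rw [map_mul, map_mul]; field_simp
      rw [this]
      exact Loc.div_mem (h1 _ ⟨u, hu, hu0, hub, g', hg'', rfl⟩) (Loc.mem_of_ev h2) h2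
    · have : μ = ip N f * (ip N g * ((u ^ d)⁻¹ * (ip N (f * g) / u ^ d / μ)⁻¹)) := by
        have := ip_ne hf
        have := ip_ne hg'
        rw [map_mul]; field_simp
      rw [this]
      have h5 : ip N g * ((u ^ d)⁻¹ * (ip N (f * g) / u ^ d / μ)⁻¹) ∈ o.O :=
        mul_mem (show ip N g ∈ o.O from hO _ (hp g))
          (mul_mem ((hO.un hui).pow d).2.2 (hO.un h2).2.2)
      have h4 := o.F_mul (show ip N f ∈ o.F 1 from Or.inr hv) (o.mem_O.1 h5)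
      rwa [add_zero] at h4
  have hfin : {v | ip N v ∈ W0 ∧ v ≠ 0}.Finite :=
    (hW0.preimage ip_inj.injOn).subset fun v hv => hv.1
  refine ⟨{v | ip N v ∈ W0 ∧ v ≠ 0}, ⟨hfin, fun h0 => h0.2 rfl, ?_, fun w hw L hL =>
    (key ⟨L, hpt w hw L hL⟩ fun p => hL.le (ip_mem_ch p)).1⟩, fun w hw L hL =>
    (key ⟨L, hpt w hw L hL⟩ fun p => hL.le (ip_mem_ch p)).2.1, fun w hw => hFx _ hw.1, ?_⟩
  swap
  · rintro s hs o o' hoo hv ⟨π, hπ⟩ ⟨w0, hw0, ho⟩ w hw L hL h1 h2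
    obtain ⟨i, hi⟩ := (key ⟨L, hpt w hw L hL⟩ fun p => hL.le (ip_mem_ch p)).2.2 o h1 hv
    exact sep_pt hsp hE hst hs hoo ⟨_, ch_fg hfin, hpt w0 hw0, ho⟩ hπ (b := ⟨L, hpt w hw L hL⟩)
      h1 h2 hi
  rw [← vanishingIdeal_zeroLocus_eq_radical (K := ℂ), mem_vanishingIdeal_iff]
  intro x hx
  by_contra hfx
  rw [aeval_eq_eval] at hfx
  obtain ⟨L, hL, hev⟩ := exists_aff x
  obtain ⟨b, rfl⟩ := Model.exists_pt (M := M) ⟨1, hM ▸ one_mem_U0, one_ne_zero, hM ▸ hL⟩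
  obtain ⟨g, hg, hgx⟩ := eval_rad hr hfx
  obtain ⟨w, hw, h1⟩ := hb b (fun h0 => by
    have := (h0 _ ⟨1, hM ▸ one_mem_U0, one_ne_zero, hM ▸ hL.le, g, hg, rfl⟩).2
    rw [one_pow, div_one, hev, map_mul] at this
    exact mul_ne_zero hfx hgx this) 1 (hM ▸ one_mem_U0) one_ne_zero (hM ▸ hL.le)
  obtain ⟨v, rfl⟩ := hWr w hw
  rw [one_pow, div_one] at h1
  have h2 : eval x v ≠ 0 := (hev v).symm ▸ h1
  have h3 := hx v (Ideal.subset_span ⟨hw, fun h0 => h2 (by rw [h0, map_zero])⟩)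
  rw [aeval_eq_eval] at h3
  exact h2 h3

end Pool.Agent.MP_5d9b3c_ag.P3R
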