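import Pool.Agent.MP_5d9b3c_ag.P3R.Dom
import Pool.Agent.MP_ee8c61_ag.M3B1.All

/-! The system of charts of a blow-up, with its structure exposed. -/

namespace Pool.Agent.MP_5d9b3c_ag.P3R

open MvPolynomial Set
open Pool.Agent.MP_96693b_ag.RS (Der)
open Pool.Agent.MP_ee8c61_ag
open M3 (Po KK ip Vl Ov Un DV Mod Lc)
open M3B1 RFin

variable {N : ℕ}

/-- The charts of `M` are open parts of the charts of the blow-up of `W`, and a multiple of the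
divisor of `W` is ample. -/
def Str (W : Set (Po N)) (M : Mod N) : Prop :=
  ∃ (w : M.ι → Po N) (t : M.ι → KK N) (c : M.J → ℤ), (∀ b, w b ∈ W) ∧ (∀ b, t b ∈ ch W (w b)) ∧
    (∀ b, t b ≠ 0) ∧ (∀ b, M.S.A b = cl W (w b) (t b)) ∧
    (∀ b, Ub (M.S.A b) (ip N (w b) * M.mon b c)) ∧ ∃ e : ℕ, M.Amp fun j => c j * e

theorem ampG (M : Mod N) {W : Set (Po N)} {w : M.ι → Po N} {t : M.ι → KK N} {c : M.J → ℤ}
    (hA : ∀ b, M.S.A b = cl W (w b) (t b)) (hc : ∀ V, Ov V → ∃ b, M.In b V)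
    (hw : ∀ b, w b ∈ W) (hw0 : ∀ b, w b ≠ 0) (ht : ∀ b, t b ∈ ch W (w b)) (ht0 : ∀ b, t b ≠ 0)
    (hu : ∀ b, Ub (M.S.A b) (ip N (w b) * M.mon b c)) : ∃ e : ℕ, M.Amp fun j => c j * e := by
  have hle : ∀ b, ∀ y ∈ ch W (w b), y ∈ M.S.A b := fun b y hy => hA b ▸ ch_le_cl hy
  choose e0 he0 using fun p : M.ι × M.ι => ch_shift (w := w p.1) (hw p.2) (hw0 p.2) (ht p.2)
  obtain ⟨e, he⟩ : ∃ e, ∀ a b, (ip N (w b) / ip N (w a)) ^ e * t b ∈ M.S.A a :=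
    ⟨Finset.univ.sup e0, fun a b =>
      hle a _ (he0 (a, b) _ (Finset.le_sup (Finset.mem_univ (a, b))))⟩
  have hq : ∀ a b, ip N (w b) / ip N (w a) ∈ M.S.A a := fun a b => hle a _ (div_mem_ch (hw b))
  have hq0 : ∀ a b, ip N (w b) / ip N (w a) ≠ 0 := fun a b =>
    div_ne_zero (ip_ne (hw0 b)) (ip_ne (hw0 a))
  have hti : ∀ b, (t b)⁻¹ ∈ M.S.A b := fun b => hA b ▸ inv_mem_cl
  have id1 : ∀ a b, t b * ip N (w b) ^ (e + 1) * M.mon a (fun j => c j * (e + 1 : ℕ)) =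
      (ip N (w b) / ip N (w a)) ^ e * t b * (ip N (w b) / ip N (w a)) *
        (ip N (w a) * M.mon a c) ^ (e + 1) := by
    intro a b
    have h : ip N (w b) = ip N (w b) / ip N (w a) * ip N (w a) :=
      (div_mul_cancel₀ _ (ip_ne (hw0 a))).symm
    rw [Mod.mon, mon_pow]
    generalize ip N (w b) / ip N (w a) = q at h ⊢
    rw [h]
    ring
  have gen2 : ∀ b V, Ov V → M.In b V →
      M.Gen V (fun j => c j * (e + 1 : ℕ)) (t b * ip N (w b) ^ (e + 1)) := by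
    intro b V hV hb a ha
    rw [id1]
    have h1 : Ub (va hV) (ip N (w b) / ip N (w a)) :=
      ⟨hq0 a b, ha _ (hq a b), by rw [inv_div]; exact hb _ (hq b a)⟩
    have h2 : Ub (va hV) (t b) := ⟨ht0 b, hb _ (hle b _ (ht b)), hb _ (hti b)⟩
    exact (ub_mul (ub_mul (ub_mul (ub_pow h1 e) h2) h1) (ub_pow (ub_le (B' := va hV) ha (hu a)) _) :)
  refine ⟨e + 1, M.ι, M.fι, id, t, fun b => t b * ip N (w b) ^ (e + 1),
    fun b => hle b _ (ht b), ht0, fun b V _ a ha => ?_, fun V hV => ?_,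
    fun b V hV => ⟨fun h => ?_, fun h => gen2 b V hV h.1⟩⟩
  · rw [id1]
    exact ha _ (mul_mem (mul_mem (he a b) (hq a b)) (pow_mem (hu a).2.1 _))
  · obtain ⟨a, ha⟩ := hc V hV
    exact ⟨a, gen2 a V hV ha⟩
  · obtain ⟨a, ha⟩ := hc V hV
    have h1 := h a ha
    rw [id1] at h1
    have hP := ha _ (he a b)
    have hQ := ha _ (hq a b)
    have hR := ha _ (pow_mem (hu a).2.1 (e + 1))
    have hQ0 := hq0 a b
    have hP0 : (ip N (w b) / ip N (w a)) ^ e * t b ≠ 0 := mul_ne_zero (pow_ne_zero _ hQ0) (ht0 b)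
    have hR0 := pow_ne_zero (e + 1) (hu a).1
    have h2 : (ip N (w b) / ip N (w a))⁻¹ ∈ V := by
      have h3 := mul_mem (mul_mem hP hR) h1.2.2
      rwa [mul_right_comm _ (ip N (w b) / ip N (w a)), mul_inv,
        mul_inv_cancel_left₀ (mul_ne_zero hP0 hR0)] at h3
    have h4 : (t b)⁻¹ ∈ V := by
      have h3 := mul_mem (pow_mem hQ e) (mul_mem (mul_mem hQ hR) h1.2.2)
      rwa [mul_assoc _ (ip N (w b) / ip N (w a)), mul_comm (_ * t b), mul_inv,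
        mul_inv_cancel_left₀ (mul_ne_zero hQ0 hR0), mul_inv,
        mul_inv_cancel_left₀ (pow_ne_zero _ hQ0)] at h3
    refine ⟨fun y hy => ?_, h4⟩
    have h5 : cl W (w b) (t b) ≤ va hV := by
      refine cl_le.2 ⟨ch_le.2 ⟨hV, fun u hu' => ?_⟩, h4⟩
      have h6 := mul_mem (ha _ (hle a _ (div_mem_ch hu'))) h2
      rwa [inv_div, div_mul_div_cancel₀ (ip_ne (hw0 a))] at h6
    exact h5 (hA b ▸ hy)

theorem finG (f : Po N) (W : Set (Po N)) (G : Finset (Po N)) (hf : f ≠ 0) (hr : ∃ r, f ^ r ∈ G)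
    (hW : Good f W) (hP : Prin W G) : ∃ M : Mod N, M.OK f ∧ Str W M ∧ ∃ c, ∀ T : Finset (KK N),
    (T : Set (KK N)) = ip N '' G → M.Gens c T := by
  obtain ⟨ι, fι, w, t, z, D, S, g, h⟩ := rowCOV (rowLOC rowET) N f W G hf hW hP G.finite_toSet
  have hw0 : ∀ b, w b ≠ 0 := fun b e => hW.nz (e ▸ h.wm b)
  obtain ⟨J, fJ, Sy, v, hS⟩ := rowSYS rowDVR N f ι (fun b => cl W (w b) (t b)) z D S hf h.gc
    fun a b x hx => loc (h.wm a) (h.wm b) (hw0 a) (hw0 b) (h.tm b) (h.t0 b) hx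
  obtain rfl := hS.hz
  obtain rfl := hS.hD
  have hA : ∀ b, Sy.A b = cl W (w b) (t b) := fun b => congrFun hS.hA b
  rw [← hS.hA] at hS
  have hG : ∀ b, GC f (Sy.A b) (Sy.z b) (Sy.D b) (S b) := fun b => by
    rw [hA]
    exact h.gc b
  have hdj : ∀ b, Dv (Sy.A b) f (jac (Sy.D b)) := fun b => by
    rw [hA]
    exact rowJAC N f W _ _ _ _ _ hW (h.wm b) (h.tm b) (h.gc b)
  obtain ⟨a, ha1, ha2⟩ := lemG rowMONO hf hS hG (fun _ => ip N f)
    (fun b => ⟨(hG b).pol f, 1, 1, one_mem _, by rw [pow_one, mul_one]⟩) fun _ _ _ _ _ => rfl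
  obtain ⟨k, _, hk⟩ := lemG rowMONO hf hS hG (fun b => jac (Sy.D b)) hdj fun j a b ha hb => by
    have hu := rowKIN N (v j).O (Sy.z a) (Sy.z b) (Sy.D a) (Sy.D b) (hG a).dual (hG b).dual
      (fun l m => der_O (hS.dv a j ha) ((hG a).pres l) ((hS.dv b j hb).le _ ((hG b).zm m)))
      (fun l m => der_O (hS.dv b j hb) ((hG b).pres l) ((hS.dv a j ha).le _ ((hG a).zm m)))
    refine val_eq (v j) (dv_ne hf (hdj a)) (dv_ne hf (hdj b)) hu.2.1 ?_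
    rw [← inv_div]
    exact hu.2.2
  have hgG : ∀ b, g b ∈ (G : Set (Po N)) ∧ g b ≠ 0 ∧
      ∀ g' ∈ (G : Set (Po N)), ip N g' / ip N (g b) ∈ Sy.A b := fun b => by
    rw [hA]
    exact h.gm b
  obtain ⟨c, hc⟩ := lemT rowMONO hf hS hG (T := (G : Set (Po N)))
    (let ⟨r, e⟩ := hr; ⟨r, Ideal.subset_span e⟩) g hgG
  obtain ⟨c', hc'⟩ := lemT rowMONO hf hS hG hW.rad w fun b => ⟨h.wm b, hw0 b, fun u hu => by
    rw [hA]
    exact ch_le_cl (div_mem_ch hu)⟩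
  let M : Mod N := ⟨ι, J, fι, fJ, Classical.decEq J, Sy, a, k, v⟩
  have hcov : ∀ V, Ov V → ∃ b, M.In b V := fun V hV => by
    obtain ⟨b, hb⟩ := h.cov V hV
    exact ⟨b, fun x hx => hb x (hA b ▸ hx)⟩
  refine ⟨M, ⟨hS.hr, fun b => (hG b).et, fun b => (hG b).pol, fun b => exU (ha2 b), fun b => ?_,
    fun j => ?_, hcov, fun b j hj => ⟨(hS.dv b j hj).le, (hS.dv b j hj).one, (hS.dv b j hj).div⟩,
    hS.ne, hS.inj, amp M hA hcov h.wm hw0 h.tm h.t0 hc'⟩, ⟨w, t, c', h.wm, h.tm, h.t0, hA, hc',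
      ampG M hA hcov h.wm hw0 h.tm h.t0 hc'⟩, c, gens M hcov hgG hc⟩
  · have e : (Matrix.of fun l i => Sy.D b i (Sy.r l)).det = jac (Sy.D b) := by
      rw [hS.hr]
      rfl
    obtain ⟨U, h1, h2⟩ := exU (hk b)
    exact ⟨U, h1, e.trans h2⟩
  · obtain ⟨_, e⟩ := ha1 j
    have h1 := hS.pos j
    rw [← e] at h1
    exact Int.natCast_pos.1 h1

end Pool.Agent.MP_5d9b3c_ag.P3R
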