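import Pool.Agent.MP_5d9b3c_ag.P3R.Loc

/-! Stable models, stable sets of points, stable blow-ups. -/

namespace Pool.Agent.MP_5d9b3c_ag.P3R

open Pool.Agent.MP_96693b_ag.RS Filter Set

variable {K : Type} [Field K] [Algebra ℂ K] {n : ℕ} {s : Sy K} {L L' : Loc K} {Γ : Fam K}
  {U U' : Set K}

theorem span_div {x : K} (hx : x ∈ Submodule.span ℂ U) (v : K) : x / v ∈ chA U v := by
  have := form_div (e := 1) (by rwa [pow_one]) v
  rwa [pow_one] at this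

theorem exists_unit {u : K} {B : Subalgebra ℂ K} (hB : B ≤ L.O) (h : ∀ x ∈ U', x / u ∈ B)
    {y : K} (hy : y ∈ Submodule.span ℂ U') (h0 : L.ev (y / u) ≠ 0) :
    ∃ x ∈ U', L.ev (x / u) ≠ 0 := by
  by_contra hc
  push Not at hc
  have : y / u ∈ L.m := by
    clear h0
    induction hy using Submodule.span_induction with
    | mem x hx => exact ⟨hB (h x hx), hc x hx⟩
    | zero => rw [zero_div]; exact zero_mem _
    | add x z _ _ h1 h2 => rw [add_div]; exact add_mem h1 h2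
    | smul r x _ h1 => rw [smul_div_assoc]; exact Loc.smul_mem r h1
  exact h0 this.2

theorem isPt_of_span (h1 : ∀ x ∈ U, x ∈ Submodule.span ℂ U')
    (h2 : ∀ x ∈ U', x ∈ Submodule.span ℂ U) (h : IsPt U L) : IsPt U' L := by
  obtain ⟨u, hu, h0, hL⟩ := h
  have a1 : ∀ x ∈ U', x / u ∈ chA U u := fun x hx => span_div (h2 x hx) u
  obtain ⟨v, hv, hv0⟩ := exists_unit hL.le a1 (h1 u hu)
    (by rw [div_self h0, Loc.ev_one]; exact one_ne_zero)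
  have v0 : v ≠ 0 := (div_ne_zero_iff.1 (Loc.ne_zero_of_ev hv0)).1
  have a2 : chA (U ∪ U') u ≤ chA U u := chA_le.2 fun x hx =>
    hx.elim (fun hx => div_mem_chA hx) (a1 x)
  have a3 : IsPt (U ∪ U') L := ⟨u, Or.inl hu, h0,
    hL.of_le (chA_le.2 fun x hx => div_mem_chA (Or.inl hx)) (a2.trans hL.le)⟩
  have a4 : chA (U ∪ U') v = chA U' v := le_antisymm
    (chA_le.2 fun x hx => hx.elim (fun hx => span_div (h1 x hx) v) fun hx => div_mem_chA hx)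
    (chA_le.2 fun x hx => div_mem_chA (Or.inr hx))
  refine ⟨v, hv, v0, a4 ▸ a3.locOf (Or.inr hv) v0 (chA_le.2 fun x hx => ?_)⟩
  rw [← div_div_div_cancel_right₀ h0]
  exact Loc.div_mem (hL.le (a2 (div_mem_chA hx))) (hL.le (a1 v hv)) hv0

theorem Cj.locOf (h : Cj s L L') {B : Subalgebra ℂ K} (H : LocOf B L) : LocOf (s.sa B) L' := by
  refine ⟨fun g hg => ?_, fun f hf => ?_⟩
  · obtain ⟨y, rfl⟩ := s.surj g
    rw [Sy.mem_sa, Sy.symm_e_e] at hg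
    exact (h.mem y).2 (H.le hg)
  · obtain ⟨y, rfl⟩ := s.surj f
    obtain ⟨p, hp, q, hq, h1, h2⟩ := H.frac y ((h.mem y).1 hf)
    refine ⟨s.e p, by rwa [Sy.mem_sa, Sy.symm_e_e], s.e q, by rwa [Sy.mem_sa, Sy.symm_e_e],
      h.ev_ne.2 h1, by rw [← map_mul, h2]⟩

theorem Sy.sa_adjoin_le (s : Sy K) (X : Set K) :
    Algebra.adjoin ℂ (s.e '' X) ≤ s.sa (Algebra.adjoin ℂ X) := by
  rw [Algebra.adjoin_le_iff]
  rintro _ ⟨x, hx, rfl⟩
  show s.symm.e (s.e x) ∈ Algebra.adjoin ℂ X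
  rw [Sy.symm_e_e]
  exact Algebra.subset_adjoin hx

theorem Sy.sa_adjoin (s : Sy K) (X : Set K) :
    s.sa (Algebra.adjoin ℂ X) = Algebra.adjoin ℂ (s.e '' X) := by
  refine le_antisymm (fun g hg => ?_) (s.sa_adjoin_le X)
  have := s.symm.sa_adjoin_le (s.e '' X)
  rw [Sy.symm_image] at this
  have h2 := this hg
  rw [Sy.mem_sa, Sy.symm_symm, Sy.e_symm_e] at h2
  exact h2

theorem Sy.sa_chA (s : Sy K) (U : Set K) (u : K) : s.sa (chA U u) = chA (s.e '' U) (s.e u) := by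
  unfold chA dvs
  rw [Sy.sa_adjoin, image_image, image_image]
  simp only [map_div₀]

theorem Cj.isPt (h : Cj s L L') (H : IsPt U L) : IsPt (s.e '' U) L' := by
  obtain ⟨u, hu, h0, hL⟩ := H
  exact ⟨s.e u, ⟨u, hu, rfl⟩, (map_ne_zero_iff _ s.e.injective).2 h0, s.sa_chA U u ▸ h.locOf hL⟩

theorem Sy.span_map (s : Sy K) {x : K} (hx : x ∈ Submodule.span ℂ U)
    {N : Submodule ℂ K} (h : ∀ y ∈ U, s.e y ∈ N) : s.e x ∈ N := by
  induction hx using Submodule.span_induction with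
  | mem y hy => exact h y hy
  | zero => rw [map_zero]; exact zero_mem _
  | add y z _ _ h1 h2 => rw [map_add]; exact add_mem h1 h2
  | smul r y _ h1 => rw [s.smul]; exact N.smul_mem _ h1

namespace Fam.Sp

theorem span (h : Γ.Sp U) (hs : s ∈ Γ.S) {x : K} (hx : x ∈ Submodule.span ℂ U) :
    s.e x ∈ Submodule.span ℂ U := s.span_map hx (h s hs)

theorem pow (h : Γ.Sp U) (hs : s ∈ Γ.S) (d : ℕ) {x : K} (hx : x ∈ Submodule.span ℂ U ^ d) :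
    s.e x ∈ Submodule.span ℂ U ^ d := by
  induction d generalizing x with
  | zero =>
    rw [pow_zero] at hx ⊢
    obtain ⟨r, rfl⟩ := Submodule.mem_one.1 hx
    rw [s.map]
    exact Submodule.mem_one.2 ⟨_, rfl⟩
  | succ d ih =>
    rw [pow_succ] at hx ⊢
    refine Submodule.mul_induction_on hx (fun a ha b hb => ?_) fun a b ha hb => ?_
    · rw [map_mul]
      exact Submodule.mul_mem_mul (ih ha) (h.span hs hb)
    · rw [map_add]
      exact add_mem ha hb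

theorem mul (h : Γ.Sp U) (h' : Γ.Sp U') : Γ.Sp (image2 (· * ·) U U') := by
  rintro s hs _ ⟨u, hu, v, hv, rfl⟩
  rw [map_mul, image2_mul, ← Submodule.span_mul_span]
  exact Submodule.mul_mem_mul (h s hs u hu) (h' s hs v hv)

theorem of_fix (h : ∀ s ∈ Γ.S, ∀ x ∈ U, s.e x ∈ U) : Γ.Sp U :=
  fun s hs x hx => Submodule.subset_span (h s hs x hx)

theorem isPt (h : Γ.Sp U) (hs : s ∈ Γ.S) (hc : Cj s L L') (H : IsPt U L) : IsPt U L' := by
  refine isPt_of_span ?_ (fun x hx => ?_) (hc.isPt H)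
  · rintro _ ⟨x, hx, rfl⟩
    exact h s hs x hx
  · rw [← s.e_symm_e x]
    exact s.span_map (h _ (Γ.symm s hs) x hx) fun y hy => Submodule.subset_span ⟨y, hy, rfl⟩

variable {M M' : Model K n}

theorem pt (h : Γ.Sp M.U) (hs : s ∈ Γ.S) (a : M.P) : ∃ b : M.P, Cj s (M.loc a) (M.loc b) :=
  ⟨⟨_, h.isPt hs (s.cj_loc _) (Model.isPt a)⟩, s.cj_loc _⟩

theorem pt' (h : Γ.Sp M.U) (hs : s ∈ Γ.S) (b : M.P) : ∃ a : M.P, Cj s (M.loc a) (M.loc b) :=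
  let ⟨a, ha⟩ := h.pt (Γ.symm s hs) b
  ⟨a, ha.symm⟩

theorem zn (h : Γ.Sp M.U) (hs : s ∈ Γ.S) {a b : M.P} (hc : Cj s (M.loc a) (M.loc b))
    {P : M.P → Prop} (H : ∀ᶠ x in zn a, P x) :
    ∀ᶠ y in zn b, ∃ x, Cj s (M.loc x) (M.loc y) ∧ P x := by
  obtain ⟨T, hT, h1, h2⟩ := eventually_zn.1 H
  refine eventually_zn.2 ⟨s.e '' T, hT.image _, ?_, fun y hy => ?_⟩
  · rintro _ ⟨t, ht, rfl⟩
    exact hc.ev_ne.2 (h1 t ht)
  · obtain ⟨x, hx⟩ := h.pt' hs y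
    exact ⟨x, hx, h2 x fun t ht => hx.ev_ne.1 (hy _ ⟨t, ht, rfl⟩)⟩

theorem van (h : Γ.Sp M.U) {D : Set M.P} (hD : Γ.St D) (hs : s ∈ Γ.S) {a b : M.P}
    (hc : Cj s (M.loc a) (M.loc b)) {f : K} (hf : f ∈ M.vanK D a) : s.e f ∈ M.vanK D b := by
  refine ⟨(hc.mem f).2 hf.1, (h.zn hs hc hf.2).mono ?_⟩
  rintro y ⟨x, hx, h1⟩ hy
  rw [hx.ev, h1 (hD _ (Γ.symm s hs) y x hx.symm hy), map_zero]

theorem van_eq (h : Γ.Sp M.U) {D : Set M.P} (hD : Γ.St D) (hs : s ∈ Γ.S) {a b : M.P}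
    (hc : Cj s (M.loc a) (M.loc b)) : M.vanK D b = s.e '' M.vanK D a := by
  refine Subset.antisymm (fun f hf => ?_) ?_
  · exact ⟨_, h.van hD (Γ.symm s hs) hc.symm hf, s.e_symm_e f⟩
  · rintro _ ⟨f, hf, rfl⟩
    exact h.van hD hs hc hf

theorem zcl (h : Γ.Sp M.U) {A : Set M.P} (hA : Γ.St A) : Γ.St (zcl A) := by
  intro s hs a b hc ha hb
  refine ha ((h.zn (Γ.symm s hs) hc.symm hb).mono ?_)
  rintro x ⟨y, hy, h1⟩ hx
  exact h1 (hA s hs x y hy.symm hx)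

theorem map (h : Γ.Sp M.U) (hd : Dom M' M) (hs : s ∈ Γ.S) {a b : M'.P}
    (hc : Cj s (M'.loc a) (M'.loc b)) : Cj s (M.loc (hd.map a)) (M.loc (hd.map b)) := by
  obtain ⟨b0, h0⟩ := h.pt hs (hd.map a)
  have : hd.map b = b0 := hd.map_eq fun g hg => by
    obtain ⟨y, rfl⟩ := s.surj g
    exact (hc.mem y).2 (hd.loc_le a ((h0.mem y).1 hg))
  rwa [this]

theorem preimage (h : Γ.Sp M.U) (hd : Dom M' M) {A : Set M.P} (hA : Γ.St A) :
    Γ.St (hd.map ⁻¹' A) := fun s hs _ _ hc ha => hA s hs _ _ (h.map hd hs hc) ha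

end Fam.Sp

variable {M M' : Model K n} {A B C : Set M.P} {E : ℕ → Set M.P} {S S' : M.Obj} {k c d : ℕ}

theorem Fam.St.diff (hA : Γ.St A) (hB : Γ.St B) : Γ.St (A \ B) := fun s hs a b hc h =>
  ⟨hA s hs a b hc h.1, fun h1 => h.2 (hB _ (Γ.symm s hs) b a hc.symm h1)⟩

theorem Fam.st_empty : Γ.St (∅ : Set M.P) := fun _ _ _ _ _ h => h

theorem Fam.So.eq (h : Γ.So S) (hs : s ∈ Γ.S) {a b : M.P} (hc : Cj s (M.loc a) (M.loc b)) :
    S b = s.ms (S a) := by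
  refine Subset.antisymm (fun p hp => ?_) ?_
  · exact ⟨_, h _ (Γ.symm s hs) b a hc.symm p hp, Prod.ext (s.e_symm_e _) rfl⟩
  · rintro _ ⟨p, hp, rfl⟩
    exact h s hs a b hc p hp

theorem Fam.So.union (h : Γ.So S) (h' : Γ.So S') : Γ.So fun b => S b ∪ S' b :=
  fun s hs a b hc p hp => hp.imp (h s hs a b hc p) (h' s hs a b hc p)

theorem IsBlG.sp (h : IsBlG Γ M C M') (hM : Γ.Sp M.U) : Γ.Sp M'.U := by
  obtain ⟨F, h1, h2⟩ := h.ex
  rw [h1.eq]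
  exact hM.mul h2

theorem IsBlG.st_bd (h : IsBlG Γ M C M') (hM : Γ.Sp M.U) (hE : ∀ i, Γ.St (E i)) (i : ℕ) :
    Γ.St (h.bl.bd k E i) := by
  unfold IsBl.bd
  split_ifs
  · exact hM.preimage h.bl.dom h.st
  · exact (h.sp hM).zcl (hM.preimage h.bl.dom ((hE i).diff h.st))

theorem IsBlG.inv (h : IsBlG Γ M C M') (H : Γ.Inv M E S) :
    Γ.Inv M' (h.bl.bd k E) (h.bl.tr S) := by
  refine ⟨h.sp H.sp, h.st_bd H.sp H.bd, fun s hs a b hc p hp => ?_⟩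
  have h1 := hc.trS hp
  have e1 : M'.vanK (h.bl.π ⁻¹' C) b = s.e '' M'.vanK (h.bl.π ⁻¹' C) a :=
    (h.sp H.sp).van_eq (H.sp.preimage h.bl.dom h.st) hs hc
  have e2 : S (h.bl.π b) = s.ms (S (h.bl.π a)) := H.ob.eq hs (H.sp.map h.bl.dom hs hc)
  rw [← e1, ← e2] at h1
  exact h1

namespace Fam.Inv

theorem Y_eq (H : Γ.Inv M E S) (hs : s ∈ Γ.S) {a b : M.P} (hc : Cj s (M.loc a) (M.loc b)) :
    M.Y E b = s.bd (M.Y E a) := funext fun i => H.sp.van_eq (H.bd i) hs hc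

theorem cos (H : Γ.Inv M E S) : Γ.St (M.cos S) := fun s hs a b hc ha => by
  show (M.loc b).Cos (S b)
  rw [H.ob.eq hs hc]
  exact hc.cos.2 ha

theorem pres (H : Γ.Inv M E S) (hs : s ∈ Γ.S) {a b : M.P} (hc : Cj s (M.loc a) (M.loc b))
    {Z G : Set K} (h : PresAt (M.loc a) n c d (M.Y E a) (S a) Z G) :
    PresAt (M.loc b) n c d (M.Y E b) (S b) (s.e '' Z) (s.e '' G) := by
  rw [H.ob.eq hs hc, H.Y_eq hs hc]
  exact hc.pres h

theorem apres (H : Γ.Inv M E S) : Γ.St (APresT M E c d S) := by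
  rintro s hs a b hc ⟨h1, Z, G, h2, h3⟩
  refine ⟨H.cos s hs a b hc h1, _, _, H.pres hs hc h2, ?_⟩
  rintro _ ⟨g, hg, rfl⟩
  exact (hc.span Z g).2 (h3 g hg)

theorem ext (H : Γ.Inv M E S) (e : ℕ) :
    Γ.So fun b => S b ∪ AComp.ext (M.loc b) n c d e k (M.Y E b) (S b) :=
  H.ob.union fun s hs a b hc p hp => by
    rw [H.ob.eq hs hc, H.Y_eq hs hc]
    exact hc.ext hp

theorem lam (H : Γ.Inv M E S) (Λ : Finset ℕ) :
    Γ.So fun b => S b ∪ wt (⋃ i ∈ Λ, M.Y E b i) 1 :=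
  H.ob.union fun s hs a b hc p hp => by
    obtain ⟨i, hi, h1⟩ := mem_iUnion₂.1 hp.1
    exact ⟨mem_biUnion hi (H.sp.van (H.bd i) hs hc h1), hp.2⟩

theorem fromIdx (H : Γ.Inv M E S) (k0 : ℕ) (h : Γ.So S') : Γ.Inv M (fromIdx k0 E) S' := by
  refine ⟨H.sp, fun i => ?_, h⟩
  unfold MP_96693b_ag.RS.fromIdx
  split_ifs
  · exact H.bd i
  · exact Fam.st_empty

theorem cen (H : Γ.Inv M E S) (hd : 0 < d) (hE : M.Snc k E) {m : M.P → ℕ → ℕ}
    (hm : AMono.MP M k E c d S m) {I : Finset ℕ} (hI : ∀ i ∈ I, i < k) (q : ℕ) :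
    Γ.St (AMono.cen M E S m I q) := by
  rintro s hs a b hc ⟨h1, h2, h3⟩
  have b1 := H.cos s hs a b hc h1
  have b2 : b ∈ strat E I := fun i hi => H.bd i s hs a b hc (h2 i hi)
  refine ⟨b1, b2, ?_⟩
  obtain ⟨Z, G, y, μ, -, -, h4⟩ := hm a
  obtain ⟨Z', G', y', μ', -, -, h5⟩ := hm b
  have h4 := zn_self h4
  have h5 := zn_self h5
  rw [h5.sum_eq b1 hI b2, ← h3, h4.sum_eq h1 hI h2]
  refine Finset.sum_congr rfl fun i hi => ?_
  have p1 := H.pres hs hc h4.1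
  have m1 := hc.mono (h4.2 h1).1
  rw [← H.Y_eq hs hc] at m1
  have hne : (M.loc b).span (M.Y E b i) ≠ 1 := fun h0 => (hE.span_eq_one i).1 h0 (b2 i hi)
  exact le_antisymm (AMono.exp_le hd b1 h5.1 p1 (h5.2 b1).1 m1 i (hI i hi) hne)
    (AMono.exp_le hd b1 p1 h5.1 m1 (h5.2 b1).1 i (hI i hi) hne)

end Fam.Inv

/-- all forms of degree `d` that vanish on `C` -/
def forms (M : Model K n) (C : Set M.P) (d : ℕ) : Submodule ℂ K where
  carrier := {x | x ∈ Submodule.span ℂ M.U ^ d ∧ ∀ b, ∀ v ∈ M.U, v ≠ 0 →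
    chA M.U v ≤ (M.loc b).O → x / v ^ d ∈ (M.loc b).span (M.vanK C b)}
  add_mem' := fun ha hb => ⟨add_mem ha.1 hb.1, fun b v h1 h2 h3 => by
    rw [add_div]
    exact add_mem (ha.2 b v h1 h2 h3) (hb.2 b v h1 h2 h3)⟩
  zero_mem' := ⟨zero_mem _, fun b v _ _ _ => by rw [zero_div]; exact zero_mem _⟩
  smul_mem' := fun r x hx => ⟨Submodule.smul_mem _ r hx.1, fun b v h1 h2 h3 => by
    rw [smul_div_assoc]
    exact Loc.smul_mem r (hx.2 b v h1 h2 h3)⟩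

theorem forms_st (hM : Γ.Sp M.U) (hC : Γ.St C) (hs : s ∈ Γ.S) {x : K} (hx : x ∈ forms M C d) :
    s.e x ∈ forms M C d := by
  refine ⟨hM.pow hs d hx.1, fun b v h1 h2 h3 => ?_⟩
  obtain ⟨a, hc⟩ := hM.pt' hs b
  obtain ⟨u, hu, h0, ha⟩ := Model.isPt a
  have h4 := (hc.span _ _).2 (hx.2 a u hu h0 ha.le)
  rw [← hM.van_eq hC hs hc] at h4
  have h5 : s.e u ≠ 0 := (map_ne_zero_iff _ s.e.injective).2 h0
  have e : s.e x / v ^ d = (s.e u / v) ^ d * s.e (x / u ^ d) := by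
    rw [map_div₀, map_pow, div_pow]
    field_simp
  rw [e]
  exact Loc.mul_mem_left (pow_mem (h3 (span_div (hM s hs u hu) v)) d) h4

theorem exists_twistG (hM : Γ.Sp M.U) (hC : Γ.St C) : ∃ G : Set K, G.Finite ∧ Γ.Sp G ∧
    ∃ d : ℕ, (∀ x ∈ G, x ∈ Submodule.span ℂ M.U ^ d) ∧ ∀ b, ∀ v ∈ M.U, v ≠ 0 →
    chA M.U v ≤ (M.loc b).O → (M.loc b).span (dvs (v ^ d) G) = (M.loc b).span (M.vanK C b) := by
  obtain ⟨G, -, d, hd, hd'⟩ := Model.exists_twist C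
  have h1 : (Submodule.span ℂ M.U ^ d).FG := (Submodule.fg_span M.fin).pow d
  have h2 : (forms M C d).FG := by
    have := (Submodule.fg_iff_finiteDimensional _).1 h1
    exact (Submodule.fg_iff_finiteDimensional _).2
      (Submodule.finiteDimensional_of_le (S₂ := Submodule.span ℂ M.U ^ d) fun x hx => hx.1)
  obtain ⟨T, hT, e⟩ := Submodule.fg_def.1 h2
  have h3 : ∀ x ∈ T, x ∈ forms M C d := fun x hx => e ▸ Submodule.subset_span hx
  refine ⟨T, hT, fun s hs x hx => e ▸ forms_st hM hC hs (h3 x hx), d, fun x hx => (h3 x hx).1,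
    fun b v hv h0 hb => le_antisymm (Loc.span_le.2 ?_) ?_⟩
  · rintro _ ⟨x, hx, rfl⟩
    exact (h3 x hx).2 b v hv h0 hb
  · rw [← hd' b v hv h0 hb]
    refine Loc.span_le.2 ?_
    rintro _ ⟨g, hg, rfl⟩
    have h4 : g ∈ Submodule.span ℂ T := e ▸ ⟨hd g hg, fun b' v' a1 a2 a3 =>
      hd' b' v' a1 a2 a3 ▸ Loc.subset_span ⟨g, hg, rfl⟩⟩
    clear hg
    induction h4 using Submodule.span_induction with
    | mem x hx => exact Loc.subset_span ⟨x, hx, rfl⟩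
    | zero => simp only [zero_div]; exact zero_mem _
    | add x z _ _ h1 h2 => simp only [add_div]; exact add_mem h1 h2
    | smul r x _ h1 => simp only [smul_div_assoc]; exact Loc.smul_mem r h1

theorem exists_blG (hM : Γ.Sp M.U) (hst : Γ.St C) (hC : M.Sm C) (hne : C ≠ univ) :
    ∃ M' : Model K n, IsBlG Γ M C M' := by
  obtain ⟨G, hG, hsp, d, hd, hd'⟩ := exists_twistG hM hst
  have hs : ∀ b, ∃ s, s ≠ 0 ∧ (M.loc b).span (dvs s G) = (M.loc b).span (M.vanK C b) := fun b =>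
    have ⟨v, hv, h0, hb⟩ := Model.isPt b
    ⟨_, pow_ne_zero _ h0, hd' b v hv h0 hb.le⟩
  obtain ⟨a, ha⟩ := (ne_univ_iff_exists_notMem _).1 hne
  obtain ⟨s, -, h1⟩ := hs a
  obtain ⟨g, hg, h0, -⟩ := exists_gen_of_one (h1.trans ((Model.span_vanK_eq_one hC.closed).2 ha))
  obtain ⟨u, hu, hu0⟩ := M.nz
  refine ⟨⟨image2 (· * ·) M.U G, M.fin.image2 _ hG, ⟨_, mem_image2_of_mem hu hg,
    mul_ne_zero hu0 h0⟩, M.gens.mul ⟨g, hg, h0⟩, fun L hL => ?_⟩,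
    ⟨fun b' => M.exists_under b'.2, G, hG, hs, rfl, d, hd, hd'⟩, hst,
    G, ⟨hG, hs, rfl, d, hd, hd'⟩, hsp⟩
  obtain ⟨b, hb⟩ := M.exists_under hL
  obtain ⟨s, hs0, h1⟩ := hs b
  by_cases hbC : b ∈ C
  · obtain ⟨κ, J, hκ, hJ⟩ := hC.sm _ hbC
    obtain ⟨j0, h⟩ := Model.blLoc_of_le hL hb hs0 hκ (h1.trans hJ)
    exact ⟨_, h.crd'⟩
  · obtain ⟨g, hg, h0, h2⟩ :=
      exists_gen_of_one (h1.trans ((Model.span_vanK_eq_one hC.closed).2 hbC))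
    rw [Model.eq_of_le_mul hL hb hg h0 h2]
    exact Model.exists_crd b

end Pool.Agent.MP_5d9b3c_ag.P3R
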