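import Pool.Agent.MP_5d9b3c_ag.P3R.Defs

/-! Transport of the local notions along a semilinear automorphism. -/

namespace Pool.Agent.MP_5d9b3c_ag.P3R

open Pool.Agent.MP_96693b_ag.RS
open scoped ENNReal

noncomputable section

variable {K : Type} [Field K] [Algebra ℂ K] {n : ℕ} {s : Sy K} {L L' : Loc K}

namespace Sy

@[simp] theorem symm_e_e (s : Sy K) (x : K) : s.symm.e (s.e x) = x := s.e.symm_apply_apply x
@[simp] theorem e_symm_e (s : Sy K) (x : K) : s.e (s.symm.e x) = x := s.e.apply_symm_apply x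
theorem symm_symm (s : Sy K) : s.symm.symm = s := rfl

theorem surj (s : Sy K) (x : K) : ∃ y, s.e y = x := s.e.surjective x

theorem smul (s : Sy K) (a : ℂ) (x : K) : s.e (a • x) = s.c a • s.e x := by
  rw [Algebra.smul_def, Algebra.smul_def, map_mul, s.map]

theorem symm_image (s : Sy K) (X : Set K) : s.symm.e '' (s.e '' X) = X := by
  rw [Set.image_image]
  simp

theorem image_symm (s : Sy K) (X : Set K) : s.e '' (s.symm.e '' X) = X := s.symm.symm_image X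

theorem mem_image (s : Sy K) {X : Set K} {x : K} : s.e x ∈ s.e '' X ↔ x ∈ X :=
  s.e.injective.mem_set_image

/-- the image of a subalgebra -/
def sa (s : Sy K) (B : Subalgebra ℂ K) : Subalgebra ℂ K where
  carrier := {g | s.symm.e g ∈ B}
  mul_mem' := fun {a b} ha hb => by
    show s.symm.e (a * b) ∈ B
    rw [map_mul]
    exact mul_mem ha hb
  add_mem' := fun {a b} ha hb => by
    show s.symm.e (a + b) ∈ B
    rw [map_add]
    exact add_mem ha hb
  algebraMap_mem' := fun r => by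
    show s.symm.e (algebraMap ℂ K r) ∈ B
    rw [s.symm.map]
    exact B.algebraMap_mem _

theorem mem_sa (s : Sy K) {B : Subalgebra ℂ K} {g : K} : g ∈ s.sa B ↔ s.symm.e g ∈ B := Iff.rfl

/-- the map onto the image of a subalgebra -/
def saHom (s : Sy K) (B : Subalgebra ℂ K) : B →+* s.sa B where
  toFun := fun x => ⟨s.e x, by rw [mem_sa, symm_e_e]; exact x.2⟩
  map_one' := Subtype.ext (map_one s.e)
  map_mul' := fun x y => Subtype.ext (map_mul s.e x.1 y.1)
  map_zero' := Subtype.ext (map_zero s.e)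
  map_add' := fun x y => Subtype.ext (map_add s.e x.1 y.1)

/-- the image of a local ring -/
def loc (s : Sy K) (L : Loc K) : Loc K where
  O := s.sa L.O
  ev := fun g => s.c (L.ev (s.symm.e g))
  ev_add := fun f hf g hg => by rw [map_add, L.ev_add _ hf _ hg, map_add]
  ev_mul := fun f hf g hg => by rw [map_mul, L.ev_mul _ hf _ hg, map_mul]
  ev_alg := fun r => by
    rw [s.symm.map, L.ev_alg]
    exact s.c.apply_symm_apply r
  ev_out := fun f hf => by rw [L.ev_out _ hf, map_zero]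
  inv_mem := fun f hf h => by
    rw [mem_sa, map_inv₀]
    exact L.inv_mem _ hf fun h0 => h (by rw [h0, map_zero])
  noeth := by
    have := L.noeth
    exact isNoetherianRing_of_surjective _ _ (s.saHom L.O) fun y =>
      ⟨⟨s.symm.e y, y.2⟩, Subtype.ext (s.e_symm_e y)⟩

theorem cj_loc (s : Sy K) (L : Loc K) : Cj s L (s.loc L) :=
  ⟨fun g => by
    show s.symm.e (s.e g) ∈ L.O ↔ _
    rw [symm_e_e], fun g => by
    show s.c (L.ev (s.symm.e (s.e g))) = _
    rw [symm_e_e]⟩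

/-- the image of a derivation -/
def der (s : Sy K) (δ : Der K) : Der K :=
  Derivation.mk'
    { toFun := fun x => s.e (δ (s.symm.e x))
      map_add' := fun x y => by rw [map_add, map_add, map_add]
      map_smul' := fun a x => by
        rw [s.symm.smul, δ.map_smul, s.smul]
        exact congrArg (· • _) (s.c.apply_symm_apply a) }
    fun x y => by
      show s.e (δ (s.symm.e (x * y))) = x • s.e (δ (s.symm.e y)) + y • s.e (δ (s.symm.e x))
      rw [map_mul, δ.leibniz, map_add, smul_eq_mul, smul_eq_mul, smul_eq_mul, smul_eq_mul,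
        map_mul, map_mul, e_symm_e, e_symm_e]

theorem der_apply (s : Sy K) (δ : Der K) (x : K) : s.der δ x = s.e (δ (s.symm.e x)) := rfl

theorem der_e (s : Sy K) (δ : Der K) (x : K) : s.der δ (s.e x) = s.e (δ x) := by
  rw [der_apply, symm_e_e]

theorem der_symm (s : Sy K) (δ : Der K) : s.der (s.symm.der δ) = δ :=
  Derivation.ext fun x => by
    rw [der_apply, der_apply, e_symm_e]
    exact congrArg δ (s.e_symm_e x)

theorem ders_e (s : Sy K) (l : List (Der K)) (x : K) :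
    ders (l.map s.der) (s.e x) = s.e (ders l x) := by
  induction l with
  | nil => rfl
  | cons δ l ih =>
    show s.der δ (ders (l.map s.der) (s.e x)) = s.e (δ (ders l x))
    rw [ih, der_e]

/-- the image of a chart -/
def ch (s : Sy K) (κ : Chart K n) : Chart K n where
  x := fun i => s.e (κ.x i)
  D := fun i => s.der (κ.D i)

theorem ch_y (s : Sy K) (κ : Chart K n) (o : Option (Fin n)) : (s.ch κ).y o = s.e (κ.y o) := by
  cases o with
  | none => exact (map_one s.e).symm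
  | some j => rfl

theorem ms_wt (s : Sy K) (Z : Set K) (w : ℕ) : s.ms (wt Z w) = wt (s.e '' Z) w := by
  ext ⟨x, k⟩
  constructor
  · rintro ⟨p, ⟨h1, h2⟩, h3⟩
    exact ⟨⟨p.1, h1, congrArg Prod.fst h3⟩, (congrArg Prod.snd h3).symm.trans h2⟩
  · rintro ⟨⟨z, hz, h1⟩, h2⟩
    exact ⟨(z, w), ⟨hz, rfl⟩, Prod.ext h1 h2.symm⟩

theorem ms_union (s : Sy K) (S T : Set (K × ℕ)) : s.ms (S ∪ T) = s.ms S ∪ s.ms T :=
  Set.image_union _ _ _

theorem symm_ms (s : Sy K) (S : Set (K × ℕ)) : s.symm.ms (s.ms S) = S := by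
  unfold ms
  rw [Set.image_image]
  simp

theorem symm_bd (s : Sy K) (Y : ℕ → Set K) : s.symm.bd (s.bd Y) = Y :=
  funext fun i => s.symm_image (Y i)

theorem mon (s : Sy K) (k : ℕ) (y : ℕ → K) (μ : ℕ → ℕ) :
    mon k (fun i => s.e (y i)) μ = s.e (mon k y μ) := by
  unfold MP_96693b_ag.RS.mon
  rw [map_prod]
  exact Finset.prod_congr rfl fun i _ => (map_pow _ _ _).symm

end Sy

/-- corresponding submodules -/
def SR (s : Sy K) {L L' : Loc K} (I : Submodule L.O K) (I' : Submodule L'.O K) : Prop :=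
  ∀ f, s.e f ∈ I' ↔ f ∈ I

namespace SR

variable {I N : Submodule L.O K} {I' N' : Submodule L'.O K}

theorem symm (h : SR s I I') : SR s.symm I' I := fun f => by
  rw [← h, Sy.e_symm_e]

theorem le (h : SR s I I') (h' : SR s N N') (e : I ≤ N) : I' ≤ N' := fun x hx => by
  obtain ⟨y, rfl⟩ := s.surj x
  exact (h' y).2 (e ((h y).1 hx))

theorem eq (h : SR s I I') (h' : SR s N N') (e : I = N) : I' = N' :=
  le_antisymm (h.le h' e.le) (h'.le h e.ge)

theorem mul_aux (h : SR s I I') (h' : SR s N N') {f : K} (hf : f ∈ I * N) : s.e f ∈ I' * N' := by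
  refine Submodule.mul_induction_on hf (fun x hx y hy => ?_) fun x y hx hy => ?_
  · rw [map_mul]
    exact Submodule.mul_mem_mul ((h x).2 hx) ((h' y).2 hy)
  · rw [map_add]
    exact add_mem hx hy

theorem mul (h : SR s I I') (h' : SR s N N') : SR s (I * N) (I' * N') := fun f =>
  ⟨fun hf => by simpa using mul_aux h.symm h'.symm hf, mul_aux h h'⟩

end SR

namespace Cj

theorem symm (h : Cj s L L') : Cj s.symm L' L :=
  ⟨fun g => by rw [← h.mem, Sy.e_symm_e], fun g => by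
    have := h.ev (s.symm.e g)
    rw [Sy.e_symm_e] at this
    rw [this]
    exact (s.c.symm_apply_apply _).symm⟩

theorem eq_loc (h : Cj s L L') : L' = s.loc L :=
  Loc.ext' (SetLike.ext fun x => by
    obtain ⟨y, rfl⟩ := s.surj x
    rw [h.mem, (s.cj_loc L).mem])

theorem of_mem (h : ∀ g, s.e g ∈ L'.O ↔ g ∈ L.O) : Cj s L L' := by
  have : L' = s.loc L := Loc.ext' (SetLike.ext fun x => by
    obtain ⟨y, rfl⟩ := s.surj x
    rw [h, (s.cj_loc L).mem])
  rw [this]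
  exact s.cj_loc L

theorem ev_ne (h : Cj s L L') {g : K} : L'.ev (s.e g) ≠ 0 ↔ L.ev g ≠ 0 := by
  rw [h.ev, map_ne_zero_iff _ s.c.injective]

theorem one (h : Cj s L L') : SR s (1 : Submodule L.O K) (1 : Submodule L'.O K) := fun f => by
  rw [Loc.mem_one, Loc.mem_one, h.mem]

theorem m (h : Cj s L L') : SR s L.m L'.m := fun f => by
  rw [Loc.mem_m, Loc.mem_m, h.mem, h.ev, map_eq_zero_iff _ s.c.injective]

theorem pow (h : Cj s L L') {I : Submodule L.O K} {I' : Submodule L'.O K} (hI : SR s I I')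
    (k : ℕ) : SR s (I ^ k) (I' ^ k) := by
  induction k with
  | zero => rw [pow_zero, pow_zero]; exact h.one
  | succ k ih => rw [pow_succ, pow_succ]; exact ih.mul hI

theorem span_aux (h : Cj s L L') {X : Set K} {f : K} (hf : f ∈ L.span X) :
    s.e f ∈ L'.span (s.e '' X) := by
  refine Loc.span_induction (p := fun x => s.e x ∈ L'.span (s.e '' X)) hf
    (fun x hx => Loc.subset_span ⟨x, hx, rfl⟩) (by rw [map_zero]; exact zero_mem _)
    (fun x y _ _ hx hy => by rw [map_add]; exact add_mem hx hy) fun a ha x _ hx => ?_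
  rw [map_mul]
  exact Loc.mul_mem_left ((h.mem a).2 ha) hx

theorem span (h : Cj s L L') (X : Set K) : SR s (L.span X) (L'.span (s.e '' X)) := fun f =>
  ⟨fun hf => by
    have := h.symm.span_aux hf
    rwa [Sy.symm_image, Sy.symm_e_e] at this, h.span_aux⟩

theorem span1 (h : Cj s L L') (x : K) : SR s (L.span {x}) (L'.span {s.e x}) := by
  have := h.span {x}
  rwa [Set.image_singleton] at this

theorem chI (h : Cj s L L') (κ : Chart K n) (J : Finset (Fin n)) :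
    SR s (κ.I L J) ((s.ch κ).I L' J) := by
  have := h.span (κ.x '' J)
  rwa [Set.image_image] at this

theorem log (h : Cj s L L') {𝔈 : Set (Set K)} {δ : Der K} (hδ : δ ∈ L.log 𝔈) :
    s.der δ ∈ L'.log ((fun X => s.e '' X) '' 𝔈) := by
  refine ⟨fun f hf => ?_, ?_⟩
  · obtain ⟨y, rfl⟩ := s.surj f
    rw [Sy.der_e, h.mem]
    exact hδ.1 y ((h.mem y).1 hf)
  · rintro _ ⟨X, hX, rfl⟩ f hf
    obtain ⟨y, rfl⟩ := s.surj f
    rw [Sy.der_e, h.span X]
    exact hδ.2 X hX y ((h.span X y).1 hf)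

theorem lg (h : Cj s L L') {Y : ℕ → Set K} {δ : Der K} (hδ : δ ∈ L.lg Y) :
    s.der δ ∈ L'.lg (s.bd Y) := by
  have := h.log hδ
  rwa [← Set.range_comp] at this

theorem lg' (h : Cj s L L') {Y : ℕ → Set K} {δ : Der K} (hδ : δ ∈ L'.lg (s.bd Y)) :
    s.symm.der δ ∈ L.lg Y := by
  have := h.symm.lg hδ
  rwa [Sy.symm_bd] at this

theorem log1 (h : Cj s L L') {Z : Set K} {δ : Der K} (hδ : δ ∈ L.log {Z}) :
    s.der δ ∈ L'.log {s.e '' Z} := by
  have := h.log hδ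
  rwa [Set.image_singleton] at this

theorem crd (h : Cj s L L') {κ : Chart K n} (hκ : IsCrd L κ) : IsCrd L' (s.ch κ) := by
  refine ⟨?_, fun i f hf => ?_, fun i j => ?_⟩
  · have := (h.span (Set.range κ.x)).eq h.m hκ.span
    rwa [← Set.range_comp] at this
  · obtain ⟨y, rfl⟩ := s.surj f
    show s.der (κ.D i) (s.e y) ∈ L'.O
    rw [Sy.der_e, h.mem]
    exact hκ.pres i y ((h.mem y).1 hf)
  · show s.der (κ.D i) (s.e (κ.x j)) = _
    rw [Sy.der_e, hκ.dual]
    split_ifs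
    · exact map_one _
    · exact map_zero _

variable {Y : ℕ → Set K} {Z G : Set K} {S T : Set (K × ℕ)} {c d k : ℕ}

theorem adp (h : Cj s L L') {κ : Chart K n} {σ : ℕ → Option (Fin n)} (H : Adp L κ Y σ) :
    Adp L' (s.ch κ) (s.bd Y) σ :=
  ⟨h.crd H.crd, fun i => by
    rw [Sy.ch_y]
    exact (h.span (Y i)).eq (h.span1 _) (H.span i), H.inj⟩

theorem trAt (h : Cj s L L') (H : TrAt L n c Y Z) : TrAt L' n c (s.bd Y) (s.e '' Z) := by
  obtain ⟨κ, σ, J, H, hJ⟩ := H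
  exact ⟨s.ch κ, σ, J, ⟨h.adp H.adp, (h.span Z).eq (h.chI κ J) H.span, H.disj⟩, hJ⟩

theorem sv (h : Cj s L L') {v : K → ℝ≥0∞} (hv : IsSV L' v) : IsSV L fun x => v (s.e x) :=
  ⟨fun f hf g hg => by
    rw [map_mul]
    exact hv.mul _ ((h.mem f).2 hf) _ ((h.mem g).2 hg), fun f hf g hg => by
    rw [map_add]
    exact hv.add _ ((h.mem f).2 hf) _ ((h.mem g).2 hg), by rw [map_zero]; exact hv.zero,
    by rw [map_one]; exact hv.one⟩

end Cj

theorem sat_pull {𝒟 𝒟' : Set (Der K)} (h : ∀ δ ∈ 𝒟, s.der δ ∈ 𝒟') {S : Set (K × ℕ)}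
    {v : K → ℝ≥0∞} (H : Sat 𝒟' (s.ms S) v) : Sat 𝒟 S fun x => v (s.e x) := by
  intro p hp l hl
  have := H _ ⟨p, hp, rfl⟩ (l.map s.der) (by
    intro δ hδ
    obtain ⟨δ', h1, rfl⟩ := List.mem_map.1 hδ
    exact h _ (hl _ h1))
  rwa [Sy.ders_e, List.length_map] at this

theorem sat_push {𝒟 𝒟' : Set (Der K)} (h : ∀ δ ∈ 𝒟', s.symm.der δ ∈ 𝒟) {S : Set (K × ℕ)}
    {v : K → ℝ≥0∞} (H : Sat 𝒟 S fun x => v (s.e x)) : Sat 𝒟' (s.ms S) v := by
  have h1 : Sat 𝒟 (s.symm.ms (s.ms S)) fun x => v (s.e x) := by rwa [Sy.symm_ms]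
  simpa using sat_pull h h1

namespace Cj

variable {Y : ℕ → Set K} {Z G : Set K} {S T : Set (K × ℕ)} {c d k : ℕ}

theorem le (h : Cj s L L') (H : Le L (L.lg Y) S T) :
    Le L' (L'.lg (s.bd Y)) (s.ms S) (s.ms T) := fun _ hv hs =>
  sat_push (fun _ => h.lg') (H _ (h.sv hv) (sat_pull (fun _ => h.lg) hs))

theorem eqv (h : Cj s L L') (H : Eqv L (L.lg Y) S T) :
    Eqv L' (L'.lg (s.bd Y)) (s.ms S) (s.ms T) := ⟨h.le H.1, h.le H.2⟩

theorem flat (h : Cj s L L') (H : Flat L (L.lg Y) Z S) :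
    Flat L' (L'.lg (s.bd Y)) (s.e '' Z) (s.ms S) := fun v hv hz hs =>
  sat_push (fun _ => h.lg') (H _ (h.sv hv) (fun z h1 => hz _ ⟨z, h1, rfl⟩)
    (sat_pull (𝒟' := L'.lg (s.bd Y) ∩ L'.log {s.e '' Z})
      (fun _ h1 => ⟨h.lg h1.1, h.log1 h1.2⟩) hs))

theorem cos (h : Cj s L L') : L'.Cos (s.ms S) ↔ L.Cos S := by
  constructor
  · intro H p hp
    exact (h.pow h.m p.2 p.1).1 (H _ ⟨p, hp, rfl⟩)
  · rintro H _ ⟨p, hp, rfl⟩
    exact (h.pow h.m p.2 p.1).2 (H p hp)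

theorem all_m (h : Cj s L L') (H : ∀ z ∈ s.e '' Z, z ∈ L'.m) : ∀ z ∈ Z, z ∈ L.m :=
  fun z hz => (h.m z).1 (H _ ⟨z, hz, rfl⟩)

theorem all_O (h : Cj s L L') (H : ∀ z ∈ Z, z ∈ L.O) : ∀ z ∈ s.e '' Z, z ∈ L'.O := by
  rintro _ ⟨z, hz, rfl⟩
  exact (h.mem z).2 (H z hz)

theorem pres (h : Cj s L L') (H : PresAt L n c d Y S Z G) :
    PresAt L' n c d (s.bd Y) (s.ms S) (s.e '' Z) (s.e '' G) := by
  have e : wt (s.e '' Z) 1 ∪ wt (s.e '' G) d = s.ms (wt Z 1 ∪ wt G d) := by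
    rw [Sy.ms_union, Sy.ms_wt, Sy.ms_wt]
  refine ⟨h.all_O H.memZ, h.all_O H.memG, ?_, fun hz => h.trAt (H.tr (h.all_m hz)),
    fun hz => ?_, fun hc => ?_⟩
  · rw [e, h.cos, h.cos, H.cos]
  · rw [← Sy.ms_wt]
    exact h.flat (H.flat (h.all_m hz))
  · rw [e]
    exact h.eqv (H.eqv (h.cos.1 hc))

variable {y : ℕ → K} {μ : ℕ → ℕ} {r : K → K}

theorem gen (h : Cj s L L') (H : Gen L Y k y) : Gen L' (s.bd Y) k fun i => s.e (y i) :=
  fun i hi => (h.span1 _).eq (h.span (Y i)) (H i hi)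

theorem exact (h : Cj s L L') (H : Exact L Y k Z G y μ r) :
    Exact L' (s.bd Y) k (s.e '' Z) (s.e '' G) (fun i => s.e (y i)) μ
      fun g => s.e (r (s.symm.e g)) := by
  refine ⟨h.gen H.gen, ?_, ?_, fun i hi hne => ?_⟩
  · rintro _ ⟨g, hg, rfl⟩
    rw [Sy.symm_e_e, h.mem]
    exact H.mem g hg
  · rintro _ ⟨g, hg, rfl⟩
    rw [Sy.symm_e_e, Sy.mon, ← map_mul, ← map_sub, h.span Z]
    exact H.cong g hg
  · obtain ⟨g, hg, h1⟩ := H.exact i hi fun h0 => hne ((h.span (Y i)).eq h.one h0)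
    refine ⟨_, ⟨g, hg, rfl⟩, fun h2 => h1 ?_⟩
    rw [Sy.symm_e_e] at h2
    refine (h.span (Z ∪ Y i) _).1 ?_
    rw [Set.image_union]
    exact h2

theorem mono (h : Cj s L L') (H : MonoAt L Y k Z G y μ) :
    MonoAt L' (s.bd Y) k (s.e '' Z) (s.e '' G) (fun i => s.e (y i)) μ := by
  refine ⟨h.gen H.gen, ?_, ?_⟩
  · rintro _ ⟨g, hg, rfl⟩
    obtain ⟨r, h1, h2⟩ := H.all g hg
    refine ⟨s.e r, (h.mem r).2 h1, ?_⟩
    rw [Sy.mon, ← map_mul, ← map_sub, h.span Z]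
    exact h2
  · obtain ⟨g, hg, r, h1, h2, h3⟩ := H.one
    refine ⟨_, ⟨g, hg, rfl⟩, s.e r, (h.mem r).2 h1, h.ev_ne.2 h2, ?_⟩
    rw [Sy.mon, ← map_mul, ← map_sub, h.span Z]
    exact h3

theorem ext (h : Cj s L L') {e : ℕ} {p : K × ℕ} (H : p ∈ AComp.ext L n c d e k Y S) :
    (s.e p.1, p.2) ∈ AComp.ext L' n c d e k (s.bd Y) (s.ms S) := by
  obtain ⟨h1, h2, Z, G, y, μ, r, h3, h4, h5, g, hg, h6⟩ := H
  have e1 : (fun g => s.e (r (s.symm.e g))) '' (s.e '' G) = s.e '' (r '' G) := by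
    rw [Set.image_image, Set.image_image]
    simp
  refine ⟨h1, h.cos.2 h2, _, _, _, μ, _, h.pres h3, h.exact h4, ?_, ?_⟩
  · rw [e1, ← Sy.ms_wt]
    exact h.flat h5
  · rw [e1]
    exact ⟨_, ⟨g, hg, rfl⟩, congrArg s.e h6⟩

theorem trS (h : Cj s L L') {X : Set K} {p : K × ℕ} (H : p ∈ trS L X S) :
    (s.e p.1, p.2) ∈ trS L' (s.e '' X) (s.ms S) := by
  obtain ⟨t, h1, q, hq, rfl⟩ := H
  refine ⟨s.e t, (h.span1 t).eq (h.span X) h1, _, ⟨q, hq, rfl⟩, ?_⟩
  simp only [map_div₀, map_pow]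

end Cj

end

end Pool.Agent.MP_5d9b3c_ag.P3R
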