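import Pool.Agent.MP_5d9b3c_ag.P3R.Glo

/-! The resolution algorithm with stable centres. -/

namespace Pool.Agent.MP_5d9b3c_ag.P3R

open Pool.Agent.MP_96693b_ag.RS Filter

variable {K : Type} [Field K] [Algebra ℂ K] {n : ℕ} {Γ : Fam K} {c d e p q : ℕ}

/-- objects with a presentation in codimension `c` can be resolved -/
def ResAllG (Γ : Fam K) (n c : ℕ) : Prop :=
  ∀ (M : Model K n) (k : ℕ) (E : ℕ → Set M.P) (S : M.Obj) (d : ℕ), Γ.Inv M E S →
    M.Snc k E → M.OK S → 0 < d → M.Pres E c d S → ResG Γ M k E S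

/-- the same under the nonvanishing hypothesis -/
def ResNZG (Γ : Fam K) (n c : ℕ) : Prop :=
  ∀ (M : Model K n) (k : ℕ) (E : ℕ → Set M.P) (S : M.Obj) (d : ℕ), Γ.Inv M E S →
    M.Snc k E → M.OK S → 0 < d → M.PresNZ E c d S → ResG Γ M k E S

/-- the same under a bound for the residual order -/
def ResLtG (Γ : Fam K) (n c d e : ℕ) : Prop :=
  ∀ (M : Model K n) (k : ℕ) (E : ℕ → Set M.P) (S : M.Obj), Γ.Inv M E S → M.Snc k E →
    M.OK S → M.RB k E c d S e → ResG Γ M k E S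

theorem resAllG_top (hc : n < c) : ResAllG Γ n c := by
  intro M k E S d _ _ _ _ hp
  refine ResG.done (Set.eq_empty_of_forall_notMem fun b hb => ?_)
  obtain ⟨Z, G, -, -, hev⟩ := hp b
  have h0 := zn_self hev
  exact absurd (h0.tr (h0.mem_m hb)).le (not_le.2 hc)

theorem resAllG_of_resNZG (hc : 0 < c) (h : ResNZG Γ n c) : ResAllG Γ n c := by
  intro M k E S d hI hE hS hd hp
  have hA := APresT_adm hc hd hS hp
  obtain ⟨M', hbG⟩ := exists_blG hI.sp hI.apres hA.centre.sm hA.centre.ne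
  have hb := hbG.bl
  refine ResG.step _ M' hbG hA (h M' (k + 1) _ _ d (hbG.inv hI) (hb.snc hE hA.centre)
    (hb.ok hE hS hA) hd ?_)
  intro a'
  obtain ⟨Z, G, hZ, hG, hev⟩ := hp (hb.π a')
  obtain ⟨s, hs⟩ := hb.APres_xfer hE hA.centre a'
  refine ⟨dvs s Z, dvs (s ^ d) G, APres_dvs_finite hZ _, APres_dvs_finite hG _, ?_⟩
  filter_upwards [hb.APres_ev (zn_zn hev), hs] with b' hb' hx
  have h0 := zn_self hb'
  have ho := hA.ord_all hS (hb.π b')
  rw [hb.APres_tr k E]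
  have h1 := (hx.presAt h0 (hS.mem _) (hS.bdd_at _) ho).2
  refine ⟨h1, fun hc' => ?_⟩
  have hcos := hx.cos_trS ho hc'
  by_cases hT : hb.π b' ∈ APresT M E c d S
  · exfalso
    have h2 := (Loc.span_eq_lift hx.le (APresT_span hd hT hZ hG hb')).symm.trans hx.gen
    have h3 : (1 : K) ∈ (M'.loc b').span (dvs s Z) := by
      rw [LBlow_mem_span_dvs hx.ne, one_mul, h2]
      exact Loc.subset_span rfl
    exact Loc.one_notMem_m (Loc.span_le.2 (h1.mem_m hc') h3)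
  · have h2 : ∃ g ∈ G, g ∉ (M.loc (hb.π b')).span Z := by
      by_contra h2
      push Not at h2
      exact hT ⟨hcos, Z, G, h0, h2⟩
    obtain ⟨g, hg, hg'⟩ := h2
    have h3 := hb.loc_off hA.centre.closed hT
    have h4 : (M'.loc b').span {s} = 1 := by
      rw [← hx.gen, h3]
      exact (Model.span_vanK_eq_one hA.centre.closed).2 hT
    refine ⟨g / s ^ d, ⟨g, hg, rfl⟩, fun h5 => hg' ?_⟩
    rw [LBlow_span_dvs_unit h4] at h5
    have h6 := Loc.mul_mem_right (pow_mem hx.mem d) h5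
    rw [div_mul_cancel₀ _ (pow_ne_zero _ hx.ne), h3] at h6
    exact h6

theorem resLtG_zero : ResLtG Γ n c d 0 := by
  intro M k E S _ _ _ hr
  refine ResG.done (Set.eq_empty_of_forall_notMem fun b hb => ?_)
  obtain ⟨Z, G, M1, M2, r, -, -, hev⟩ := hr b
  obtain ⟨hl, g, hg, hg'⟩ := (zn_self hev).2 hb
  rw [pow_zero] at hg'
  exact hg' (Submodule.mem_sup_right (Loc.mem_one.2 (hl.mem g hg)))

theorem resG_of_rel (h : ResLtG Γ n c d e) {M : Model K n} {k : ℕ}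
    {E : ℕ → Set M.P} {S' : M.Obj} (hr : ResG Γ M k E S') (S : M.Obj) (hI : Γ.Inv M E S)
    (hE : M.Snc k E) (hS : M.OK S) (hS' : M.OK S') (hrel : M.Rel k E c d e S S') :
    ResG Γ M k E S := by
  induction hr with
  | @done M k E S' hcos =>
    refine h M k E S hI hE hS fun a => ?_
    obtain ⟨Z, G, M1, M2, r, hZ, hG, hev⟩ := hrel.loc a
    refine ⟨Z, G, M1, M2, r, hZ, hG, hev.mono fun b hb => ⟨hb.pres, fun hc => ⟨hb.lau hc, ?_⟩⟩⟩
    by_contra h1
    push Not at h1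
    have hm := hb.pres.mem_m hc
    have h2 : (M.loc b).Cos (wt (r '' G) e) := by
      refine flat_cos (hb.pres.tr hm) (in_wt.2 ?_) (hb.flat hm) ?_
      · rintro _ ⟨g, hg, rfl⟩; exact hb.mem g hg
      · rintro ⟨_, _⟩ ⟨⟨g, hg, rfl⟩, rfl⟩; exact h1 g hg
    have h3 : b ∈ M.cos S' := hb.cos.2 ⟨hc, h2⟩
    rw [hcos] at h3
    exact h3
  | @step M k E S' C M' hbG hA _ ih =>
    have hb := hbG.bl
    have hA0 : M.Adm E S C := ⟨hA.centre, fun b hbC => (hA.ord b hbC).subset (hrel.sub b)⟩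
    refine ResG.step C M' hbG hA0 (ih (hb.tr S) (hbG.inv hI) (hb.snc hE hA.centre)
      (hb.ok hE hS hA0) (hb.ok hE hS' hA)
      ⟨fun b' => trS_mono (hrel.sub _), fun a' => ?_⟩)
    obtain ⟨Z, G, M1, M2, r, hZ, hG, hev⟩ := hrel.loc (hb.π a')
    obtain ⟨s, hs⟩ := hb.APres_xfer hE hA.centre a'
    refine ⟨dvs s Z, dvs (s ^ d) G, M1 * s ^ d, M2 * s ^ e, fun g => r (g * s ^ d) / s ^ e,
      APres_dvs_finite hZ _, APres_dvs_finite hG _, ?_⟩
    filter_upwards [hb.APres_ev hev, hs] with b' hb' hx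
    rw [hb.APres_tr k E, hb.APres_tr k E]
    exact hx.relAt hb' (hrel.sub _) (hS'.mem _) (hS'.bdd_at _) (hA.ord_all hS' _)

namespace Step1

open AStep1

theorem innerG {k0 : ℕ} (Λ : Finset ℕ) (hΛ : ∀ i ∈ Λ, i < k0) (FF : Finset (Finset ℕ))
    (IH : ∀ (M : Model K n) (k : ℕ) (E : ℕ → Set M.P) (S : M.Obj), Γ.Inv M E S → M.Snc k E →
      M.OK S → k0 ≤ k → M.Pres (fromIdx k0 E) c d S →
      (∀ Λ' : Finset ℕ, (∀ i ∈ Λ', i < k0) → (M.cos S ∩ strat E Λ').Nonempty →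
        Λ' ∈ FF.erase Λ) → ResG Γ M k E S)
    {M : Model K n} {k : ℕ} {F : ℕ → Set M.P} {S1 : M.Obj}
    (hr : ResG Γ M k F S1) :
    ∀ (E : ℕ → Set M.P) (S : M.Obj) (T : M.P → Set K), F = fromIdx k0 E →
      S1 = (fun b => S b ∪ wt (T b) 1) →
      (∀ b, (M.loc b).span (T b) = (M.loc b).span (⋃ i ∈ Λ, M.Y E b i)) →
      M.Snc k E → M.OK S → Γ.Inv M E S → k0 ≤ k → M.Pres (fromIdx k0 E) c d S →
      (∀ Λ' : Finset ℕ, (∀ i ∈ Λ', i < k0) → (M.cos S ∩ strat E Λ').Nonempty → Λ' ∈ FF) →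
      (∀ i < k0, i ∉ Λ → ¬ (M.cos S ∩ strat E (insert i Λ)).Nonempty) → ResG Γ M k E S := by
  induction hr with
  | @done M k F S1 h0 =>
    intro E S T hF hS1 hT hE hS hg hk hp hFF _
    refine IH M k E S hg hE hS hk hp fun Λ' h1 h2 => Finset.mem_erase.mpr ⟨?_, hFF Λ' h1 h2⟩
    rintro rfl
    obtain ⟨b, hb, hb'⟩ := h2
    have : b ∈ M.cos S1 := by
      subst hS1
      exact cos_union.mpr ⟨hb, (cos_T hE (hT b)).mpr hb'⟩
    rw [h0] at this
    exact this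
  | @step M k F S1 C M' hbG hC _ ih =>
    have h := hbG.bl
    intro E S T hF hS1 hT hE hS hg hk hp hFF hmax
    subst hF hS1
    have hok := ok_union hS hT
    have hord : ∀ b, ∀ i ∈ Λ, ∀ y ∈ M.Y E b i, y ∈ (M.loc b).span (M.vanK C b) := by
      intro b i hi y hy
      have h1 := ord_wt_one.mp (ord_union.mp (hC.ord_all hok b)).2
      have h2 : y ∈ (M.loc b).span (T b) := by
        rw [hT b]
        exact Loc.subset_span (Set.mem_biUnion hi hy)
      exact Loc.span_le.mpr h1 h2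
    have hcen : M.Centre E C := by
      refine ⟨hC.centre.closed, hC.centre.ne, fun b hb => ?_⟩
      refine sncAt_of_sub (hE.adp b) (hC.centre.snc b hb) fun i => ?_
      by_cases hi : k0 ≤ i
      · left
        simp [Model.Y, fromIdx, hi]
      · right
        refine ⟨by simpa [Model.Y, fromIdx, hi] using Model.span_vanK_empty, ?_⟩
        by_cases hbi : b ∈ E i
        · right
          have hcos := cos_union.mp (hC.subset_cos hb)
          by_cases hiΛ : i ∈ Λ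
          · exact hord b i hiΛ
          · refine absurd ⟨b, hcos.1, fun j hj => ?_⟩ (hmax i (not_le.mp hi) hiΛ)
            rcases Finset.mem_insert.mp hj with rfl | hj
            · exact hbi
            · exact (cos_T hE (hT b)).mp hcos.2 j hj
        · exact Or.inl ((hE.span_eq_one i).mpr hbi)
    have hadm : M.Adm E S C :=
      ⟨hcen, fun b hb => (hC.ord b hb).subset Set.subset_union_left⟩
    have hadm' : M.Adm (fromIdx k0 E) S C :=
      ⟨hC.centre, fun b hb => (hC.ord b hb).subset Set.subset_union_left⟩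
    have hex : ∀ b' : M'.P, ∃ T' : Set K,
        trS (M'.loc b') (M'.vanK (h.π ⁻¹' C) b') (wt (T (h.π b')) 1) = wt T' 1 ∧
          (M'.loc b').span T' = (M'.loc b').span (⋃ i ∈ Λ, M'.Y (h.bd k E) b' i) := by
      intro b'
      obtain ⟨s, hs⟩ := h.exists_gen hcen.sm b'
      have hs := zn_self hs
      have hx := h.xfer hE hcen b' hs
      obtain ⟨T', h1, h2⟩ := trS_wt_one (Z := T (h.π b')) hs
      refine ⟨T', h1, ?_⟩
      have h3 : ∀ i ∈ Λ, (M'.loc b').span (M'.Y (h.bd k E) b' i) =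
          (M'.loc b').span (dvs s (M.Y E (h.π b') i)) := fun i hi =>
        hx.bd1 i (by have := hΛ i hi; omega) (hord _ i hi)
      rw [h2, LBlow_span_dvs_congr hx.ne (Loc.span_eq_lift hx.le (hT _)) rfl]
      refine le_antisymm (Loc.span_le.mpr ?_) (Loc.span_le.mpr ?_)
      · rintro _ ⟨y, hy, rfl⟩
        simp only [Set.mem_iUnion] at hy
        obtain ⟨i, hi, hy⟩ := hy
        refine Loc.span_mono (Set.subset_biUnion_of_mem (u := fun i => M'.Y (h.bd k E) b' i) hi) ?_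
        rw [h3 i hi]
        exact Loc.subset_span ⟨y, hy, rfl⟩
      · intro f hf
        simp only [Set.mem_iUnion] at hf
        obtain ⟨i, hi, hf⟩ := hf
        have h4 : f ∈ (M'.loc b').span (dvs s (M.Y E (h.π b') i)) := h3 i hi ▸ Loc.subset_span hf
        refine Loc.span_mono (Set.image_mono ?_) h4
        exact Set.subset_biUnion_of_mem (u := fun i => M.Y E (h.π b') i) hi
    choose T' hT1 hT2 using hex
    have hdown : ∀ Λ' : Finset ℕ, (∀ i ∈ Λ', i < k0) →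
        (M'.cos (h.tr S) ∩ strat (h.bd k E) Λ').Nonempty → (M.cos S ∩ strat E Λ').Nonempty := by
      rintro Λ' h1 ⟨b', hb, hb'⟩
      exact ⟨h.π b', h.cos_tr hE hS hadm hb, fun i hi =>
        h.bd_lt hE (by have := h1 i hi; omega) (hb' i hi)⟩
    refine ResG.step C M' hbG hadm (ih (h.bd k E) (h.tr S) T' (bd_from h hk E) ?_ hT2
      (h.snc hE hcen) (h.ok hE hS hadm) (hbG.inv hg) (by omega) ?_
      (fun Λ' h1 h2 => hFF Λ' h1 (hdown Λ' h1 h2)) fun i hi hi' h2 => hmax i hi hi' ?_)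
    · funext b'
      unfold IsBl.tr
      rw [trS_union, hT1]
    · rw [← bd_from h hk E]
      exact h.pres (snc_from k0 hE) hS hadm' hp
    · refine hdown _ (fun j hj => ?_) h2
      rcases Finset.mem_insert.mp hj with rfl | hj
      · exact hi
      · exact hΛ j hj

theorem outerG {k0 : ℕ} (h : ResAllG Γ n c) (hd : 0 < d) (N : ℕ) :
    ∀ FF : Finset (Finset ℕ), FF.card ≤ N →
      ∀ (M : Model K n) (k : ℕ) (E : ℕ → Set M.P) (S : M.Obj), Γ.Inv M E S → M.Snc k E →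
      M.OK S → k0 ≤ k → M.Pres (fromIdx k0 E) c d S →
      (∀ Λ' : Finset ℕ, (∀ i ∈ Λ', i < k0) → (M.cos S ∩ strat E Λ').Nonempty → Λ' ∈ FF) →
        ResG Γ M k E S := by
  classical
  induction N with
  | zero =>
    intro FF hc M k E S _ _ _ _ _ hFF
    refine ResG.done (Set.eq_empty_of_forall_notMem fun b hb => ?_)
    have h1 := hFF ∅ (by simp) ⟨b, hb, fun i hi => by simp at hi⟩
    rw [Finset.card_eq_zero.mp (Nat.le_zero.mp hc)] at h1
    simp at h1
  | succ N ih =>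
    intro FF hc M k E S hg hE hS hk hp hFF
    by_cases h0 : M.cos S = ∅
    · exact ResG.done h0
    obtain ⟨b0, hb0⟩ := Set.nonempty_iff_ne_empty.mpr h0
    obtain ⟨Λ, hΛ, hmax⟩ := Finset.exists_max_image
      ((Finset.range k0).powerset.filter fun Λ' => (M.cos S ∩ strat E Λ').Nonempty)
      Finset.card ⟨∅, Finset.mem_filter.mpr ⟨by simp, b0, hb0, fun i hi => by simp at hi⟩⟩
    obtain ⟨hΛ1, hΛ2⟩ := Finset.mem_filter.mp hΛ
    have hΛ0 : ∀ i ∈ Λ, i < k0 := fun i hi =>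
      Finset.mem_range.mp (Finset.mem_powerset.mp hΛ1 hi)
    have hok : M.OK (fun b => S b ∪ wt (⋃ i ∈ Λ, M.Y E b i) 1) :=
      ok_union (E := E) (Λ := Λ) hS fun _ => rfl
    have hr := h M k (fromIdx k0 E) _ d.factorial (hg.fromIdx k0 (hg.lam Λ)) (snc_from k0 hE) hok
      d.factorial_pos
      ((wpres hE hd hp Λ).pres (snc_from k0 hE) hok)
    refine innerG Λ hΛ0 FF (ih (FF.erase Λ) ?_) hr E S (fun b => ⋃ i ∈ Λ, M.Y E b i) rfl rfl
      (fun _ => rfl) hE hS hg hk hp hFF fun i hi hi' hne => ?_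
    · rw [Finset.card_erase_of_mem (hFF Λ hΛ0 hΛ2)]
      omega
    · have h1 := hmax (insert i Λ) (Finset.mem_filter.mpr ⟨Finset.mem_powerset.mpr
        (Finset.insert_subset (Finset.mem_range.mpr hi) (Finset.mem_powerset.mp hΛ1)), hne⟩)
      rw [Finset.card_insert_of_notMem hi'] at h1
      omega

end Step1

theorem resG_of_fromIdx (h : ResAllG Γ n c) (M : Model K n) (k k0 : ℕ) (E : ℕ → Set M.P)
    (S : M.Obj) (d : ℕ) (hI : Γ.Inv M E S) (hE : M.Snc k E) (hS : M.OK S) (hd : 0 < d)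
    (hk : k0 ≤ k) (hp : M.Pres (fromIdx k0 E) c d S) : ResG Γ M k E S :=
  Step1.outerG h hd _ (Finset.range k0).powerset le_rfl M k E S hI hE hS hk hp fun _ h1 _ =>
    Finset.mem_powerset.mpr fun i hi => Finset.mem_range.mpr (h1 i hi)

namespace Mono

open AMono

/-- resolvability under a bound for the potential -/
def RPG (Γ : Fam K) (n c d p q N : ℕ) : Prop :=
  ∀ (M : Model K n) (k : ℕ) (E : ℕ → Set M.P) (S : M.Obj) (m : M.P → ℕ → ℕ)
    (F : Finset (Finset ℕ)), Γ.Inv M E S → M.Snc k E → M.OK S → MP M k E c d S m → F.card = N →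
      Pot M k E d S m p q F → ResG Γ M k E S

theorem rpG_card (hd : 0 < d) (h : RPG Γ n c d p q 0) : ∀ N, RPG Γ n c d p q N
  | 0 => h
  | N + 1 => fun M k E S m F hJ hE hS hm hF hp => by
    obtain ⟨I, hIF⟩ := Finset.card_pos.1 (show 0 < F.card by omega)
    have hc : (F.erase I).card = N := by rw [Finset.card_erase_of_mem hIF]; omega
    by_cases hI : (∀ i ∈ I, i < k) ∧ I.Nonempty ∧ d ≤ q ∧ I.card = p
    · obtain ⟨hI, hne, hq, hcard⟩ := hI
      have hadm := cen_adm hE hS hm hI hne hq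
      obtain ⟨M', hbG⟩ := exists_blG hJ.sp (hJ.cen hd hE hm hI q) hadm.centre.sm hadm.centre.ne
      have hb := hbG.bl
      exact ResG.step _ M' hbG hadm
        (rpG_card hd h N M' _ _ _ _ _ (hbG.inv hJ) (hb.snc hE hadm.centre)
        (hb.ok hE hS hadm) (mp_step hE hS hm hI hne hq hb) hc
        (pot_step hE hS hm hI hne hq hb hcard hp))
    · refine rpG_card hd h N M k E S m _ hJ hE hS hm hc fun b hb I' h1 h2 h3 => ?_
      rcases hp b hb I' h1 h2 h3 with h4 | ⟨h4, h5 | ⟨h5, h6⟩⟩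
      · exact Or.inl h4
      · exact Or.inr ⟨h4, Or.inl h5⟩
      · refine Or.inr ⟨h4, Or.inr ⟨h5, Finset.mem_erase.2 ⟨?_, h6⟩⟩⟩
        rintro rfl
        refine hI ⟨h1, Finset.nonempty_iff_ne_empty.2 ?_, h5 ▸ h3, h4⟩
        rintro rfl
        simp at h3
        omega

theorem rpG_sum (hd : 0 < d) (h : RPG Γ n c d p 0 0) : ∀ q, RPG Γ n c d p q 0
  | 0 => h
  | q + 1 => fun M k E S m F hJ hE hS hm hF hp => by
    refine rpG_card hd (rpG_sum hd h q) _ M k E S m (Finset.range k).powerset hJ hE hS hm rfl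
      fun b hb I h1 h2 h3 => ?_
    rcases hp b hb I h1 h2 h3 with h4 | ⟨h4, h5 | ⟨-, h6⟩⟩
    · exact Or.inl h4
    · refine Or.inr ⟨h4, ?_⟩
      rcases Nat.lt_succ_iff_lt_or_eq.1 h5 with h6 | h6
      · exact Or.inl h6
      · exact Or.inr ⟨h6, Finset.mem_powerset.2 fun i hi => Finset.mem_range.2 (h1 i hi)⟩
    · rw [Finset.card_eq_zero.1 hF] at h6
      simp at h6

theorem rpG_top (hp : n ≤ p) : RPG Γ n c d p 0 0 := by
  classical
  intro M k E S m F _ hE _ hm hF hpot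
  refine ResG.done (Set.eq_empty_of_forall_notMem fun b hb => ?_)
  obtain ⟨Z, G, y, μ, -, -, h1⟩ := hm b
  have h2 := zn_self h1
  have hZ := pres_m h2.1 hb
  have h3 := ((h2.2 hb).1.cos_iff (h2.1.tr hZ) h2.1.memG (h2.1.flat hZ)).1
    (cos_union.1 (h2.1.cos.1 hb)).2
  set I := (Finset.range k).filter (fun i => (M.loc b).span (M.Y E b i) ≠ 1) with hI
  have hI1 : ∀ i ∈ I, i < k := fun i hi => Finset.mem_range.1 (Finset.mem_filter.1 hi).1
  have hI2 : b ∈ strat E I := fun i hi => by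
    by_contra h4
    exact (Finset.mem_filter.1 hi).2 ((hE.span_eq_one i).2 h4)
  obtain ⟨κ, σ, hκ⟩ := hE.adp b
  have h4 := hκ.card_le I fun i hi => (Finset.mem_filter.1 hi).2
  rcases hpot b hb I hI1 hI2 (h2.sum_eq hb hI1 hI2 ▸ h3) with h5 | ⟨-, h5 | ⟨-, h5⟩⟩
  · omega
  · omega
  · rw [Finset.card_eq_zero.1 hF] at h5
    simp at h5

theorem rpG_all (hd : 0 < d) (p : ℕ) : RPG Γ n c d p 0 0 := by
  by_cases hp : n ≤ p
  · exact rpG_top hp
  · intro M k E S m F hJ hE hS hm hF hpot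
    obtain ⟨q, hq⟩ := hm.exists_bound
    refine rpG_sum hd (rpG_all hd (p + 1)) q M k E S m F hJ hE hS hm hF
      fun b hb I h1 h2 h3 => ?_
    rcases hpot b hb I h1 h2 h3 with h4 | ⟨-, h5 | ⟨-, h5⟩⟩
    · rcases Nat.lt_or_eq_of_le (Nat.succ_le_of_lt h4) with h6 | h6
      · exact Or.inl h6
      · exact Or.inr ⟨h6.symm, Or.inl (hq b hb I h1 h2)⟩
    · omega
    · rw [Finset.card_eq_zero.1 hF] at h5
      simp at h5
termination_by n - p
decreasing_by omega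

end Mono

theorem resLtG_one (hd : 0 < d) : ResLtG Γ n c d 1 := by
  intro M k E S hI hE hS h
  obtain ⟨m, hm⟩ := AMono.start hd hE h
  refine Mono.rpG_all hd 0 M k E S m ∅ hI hE hS hm rfl fun b _ I _ _ h3 => Or.inl ?_
  refine Finset.card_pos.2 (Finset.nonempty_iff_ne_empty.2 ?_)
  rintro rfl
  simp at h3
  omega

theorem exists_companionG {M : Model K n} {k : ℕ} {E : ℕ → Set M.P} {S : M.Obj}
    (hI : Γ.Inv M E S) (hE : M.Snc k E) (hS : M.OK S) (hd : 0 < d)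
    (h : M.RB k E c d S (e + 2)) :
    ∃ (S' : M.Obj) (d' : ℕ), 0 < d' ∧ M.OK S' ∧ M.Pres (fun _ => ∅) (c + 1) d' S' ∧
      M.Rel k E c d (e + 1) S S' ∧ Γ.So S' := by
  have hok : M.OK (fun b => S b ∪ AComp.ext (M.loc b) n c d (e + 1) k (M.Y E b) (S b)) := by
    refine ⟨fun b => in_union.mpr ⟨hS.mem b, AComp.in_ext⟩, ?_⟩
    obtain ⟨W, hW⟩ := hS.bdd
    refine ⟨max W (e + 1), fun b p hp => ?_⟩
    rcases hp with hp | hp
    · exact (hW b p hp).trans (le_max_left _ _)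
    · exact hp.1.le.trans (le_max_right _ _)
  refine ⟨_, _, Nat.factorial_pos _, hok, (AComp.wpres hE hd h).pres (Model.snc_empty k) hok,
    ⟨fun _ => Set.subset_union_left, fun a => ?_⟩, hI.ext (e + 1)⟩
  obtain ⟨Z, G, y, μ, r, hZ, hG, hb⟩ := AComp.exists_dat hE h a
  exact ⟨Z, G, 1, mon k y μ, r, hZ, hG,
    hb.mono fun b hb => hb.rel (M.exists_crd b).choose_spec hd⟩

theorem resLtG_all (hd : 0 < d) (h : ResAllG Γ n (c + 1)) : ∀ e, ResLtG Γ n c d e
  | 0 => resLtG_zero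
  | 1 => resLtG_one hd
  | e + 2 => fun M k E S hI hE hS hr => by
    obtain ⟨S', d', hd', hS', hp, hrel, hg'⟩ := exists_companionG hI hE hS hd hr
    have he : fromIdx k E = fun _ => ∅ := by
      funext i
      unfold fromIdx
      split_ifs with hi
      · exact hE.bd i hi
      · rfl
    exact resG_of_rel (resLtG_all hd h (e + 1)) (resG_of_fromIdx h M k k E S' d'
      ⟨hI.sp, hI.bd, hg'⟩ hE hS' hd' le_rfl (he ▸ hp)) S hI hE hS hS' hrel

theorem resNZG_of_resAllG (h : ResAllG Γ n (c + 1)) : ResNZG Γ n c :=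
  fun M k E S _ hI hE hS hd hp => by
    obtain ⟨e, he⟩ := hp.exists_rb hE
    exact resLtG_all hd h e M k E S hI hE hS he

theorem resAllG_succ (c : ℕ) : ResAllG Γ n (c + 1) := by
  by_cases hc : n < c + 1
  · exact resAllG_top hc
  · exact resAllG_of_resNZG (Nat.succ_pos c) (resNZG_of_resAllG (resAllG_succ (c + 1)))
termination_by n - c
decreasing_by omega

/-- principalisation -/
theorem princG {M : Model K n} {k : ℕ} {E : ℕ → Set M.P} {I : M.P → Set K}
    (hJ : Γ.Inv M E fun b => wt (I b) 1) (hE : M.Snc k E) (hI : M.Coh I) :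
    ResG Γ M k E (fun b => wt (I b) 1) := by
  refine resNZG_of_resAllG (resAllG_succ 0) M k E _ 1 hJ hE hI.ok one_pos ?_
  intro a
  obtain ⟨G, hG, hne, h⟩ := hI a
  refine ⟨∅, G, Set.finite_empty, hG, h.mono fun b hb => ⟨?_, fun _ => ?_⟩⟩
  · obtain ⟨κ, σ, hκ⟩ := hE.adp b
    refine ⟨by simp, hb.1, ?_,
      fun _ => ⟨κ, σ, ∅, ⟨hκ, by rw [Loc.span_empty, Chart.I_empty], by simp⟩, rfl⟩,
      fun _ v _ _ hs => ?_, fun _ => ?_⟩
    · rw [wt_empty, Set.empty_union, cos_wt_one, cos_wt_one, forall_mem_m_congr hb.2]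
    · exact hs.mono fun δ hδ =>
        ⟨hδ, Loc.mem_log_of_gen (Loc.log_sub_empty hδ) (by simp) (by simp)⟩
    · rw [wt_empty, Set.empty_union]
      exact (eqv_wt_of_span_eq Loc.log_sub_empty hb.1 hb.2.symm).symm
  · obtain ⟨g, hg, h0⟩ := hne
    exact ⟨g, hg, by rw [Loc.span_empty]; simpa using h0⟩

theorem towG_ind {M : Model K n} {k : ℕ} {E : ℕ → Set M.P} {S : M.Obj}
    (hr : ResG Γ M k E S) :
    Γ.Sp M.U → (∀ i, Γ.St (E i)) → M.Snc k E → M.OK S → ∀ (B : Set M.P) (I : M.P → Set K),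
    M.cos S ⊆ B → (∀ b, RTowDiv (M.loc b) (M.Y E b) k (I b) (S b)) →
    ∃ (M' : Model K n) (hd : Dom M' M) (k : ℕ) (E : ℕ → Set M'.P), TwrG Γ M B M' ∧ M'.Snc k E ∧
      Γ.Sp M'.U ∧ (∀ i, Γ.St (E i)) ∧
      ∀ b', ∃ μ, Mon (M'.loc b') (M'.Y E b') k μ ∧ (∀ g ∈ I (hd.map b'), g / μ ∈ (M'.loc b').O) ∧
        ∃ g ∈ I (hd.map b'), (M'.loc b').ev (g / μ) ≠ 0 := by
  induction hr with
  | @done M k E S h0 =>
    intro hU hB hE hS B I _ hD
    refine ⟨M, .refl M, k, E, .refl M B, hE, hU, hB, fun b => ?_⟩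
    obtain ⟨μ, hμ, hm, h1, h2⟩ := hD b
    have hb' : ¬ ∀ p ∈ S b, p.1 ∈ (M.loc b).m ^ p.2 := fun hb => (h0 ▸ hb : b ∈ (∅ : Set M.P))
    push Not at hb'
    obtain ⟨p, hp, hpm⟩ := hb'
    obtain ⟨hw, g, hg, u, hu, e⟩ := h1 p hp
    rw [hw, pow_one] at hpm
    have hO : ∀ g' ∈ I b, g' / μ ∈ (M.loc b).O := fun g' hg' => hS.mem b _ (h2 g' hg')
    rw [Dom.map_refl]
    refine ⟨μ, hm, hO, g, hg, fun h => hpm ⟨hS.mem b p hp, ?_⟩⟩
    rw [eq_div_of_mul_eq hμ e, mul_div_assoc, (M.loc b).ev_mul u hu _ (hO g hg)]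
    exact mul_eq_zero_of_right _ h
  | @step M k E S C M' hbG hC _ ih =>
    intro hU hB hE hS B I hc hD
    have h := hbG.bl
    obtain ⟨M'', hd, k', E', h1, h2, g1, g2, h3⟩ := ih (hbG.sp hU) (hbG.st_bd hU hB)
      (h.snc hE hC.centre) (h.ok hE hS hC)
      (h.π ⁻¹' B) (I ∘ h.π) ((h.cos_tr hE hS hC).trans (Set.preimage_mono hc)) fun b' => by
      obtain ⟨μ, hμ, hm, h1, h2⟩ := hD (h.π b')
      obtain ⟨s, hs⟩ := h.exists_gen hC.centre.sm b'
      have hs := zn_self hs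
      have hx := h.xfer hE hC.centre b' hs
      refine ⟨μ * s, mul_ne_zero hμ hx.ne, (hx.mon hm).mul (pow_one s ▸ hx.mon_s 1), ?_,
        fun g hg => ⟨s, hs, _, h2 g hg, ?_⟩⟩
      · rintro _ ⟨t, ht, p, hp, rfl⟩
        obtain ⟨hw, g, hg, u, hu, e⟩ := h1 p hp
        obtain ⟨v, hv, -, hvs⟩ := Loc.span_singleton_eq_iff.mp (ht.trans hs.symm)
        have ht0 : t ≠ 0 := by
          rintro rfl
          exact hx.ne (by rw [hvs, mul_zero])
        refine ⟨hw, g, hg, v * u, mul_mem hv (hx.le hu), ?_⟩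
        change p.1 / t ^ p.2 * (μ * s) = v * u * g
        rw [hw, pow_one, hvs, mul_assoc v u g, ← e]
        field_simp
      · simp only [pow_one, div_div]
    refine ⟨M'', hd.trans h.dom, k', E', .step C hbG hC.centre.sm (hC.subset_cos.trans hc) h1, h2,
      g1, g2, ?_⟩
    rw [← Dom.map_comp hd h.dom]
    exact h3

/-- principalisation by a stable tower over the zero set -/
theorem principaliseG {M : Model K n} {I : M.P → Set K} (hU : Γ.Sp M.U) (hI : M.Coh I)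
    (hJ : ∀ s ∈ Γ.S, ∀ a b : M.P, Cj s (M.loc a) (M.loc b) → ∀ g ∈ I a, s.e g ∈ I b) :
    ∃ (M' : Model K n) (hd : Dom M' M) (k : ℕ) (E : ℕ → Set M'.P),
      TwrG Γ M {b | ∀ g ∈ I b, g ∈ (M.loc b).m} M' ∧ M'.Snc k E ∧
      Γ.Sp M'.U ∧ (∀ i, Γ.St (E i)) ∧
      ∀ b', ∃ μ, Mon (M'.loc b') (M'.Y E b') k μ ∧ (∀ g ∈ I (hd.map b'), g / μ ∈ (M'.loc b').O) ∧
        ∃ g ∈ I (hd.map b'), (M'.loc b').ev (g / μ) ≠ 0 :=
  towG_ind (princG ⟨hU, fun _ => Fam.st_empty,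
      fun s hs a b hc p hp => ⟨hJ s hs a b hc _ hp.1, hp.2⟩⟩ (Model.snc_empty 0) hI) hU
    (fun _ => Fam.st_empty) (Model.snc_empty 0) hI.ok _ I
    (fun _ hb => cos_wt_one.1 hb) fun _ => ⟨1, one_ne_zero,
      Mon.one (y := fun _ => 1) fun _ hi => absurd hi (Nat.not_lt_zero _),
      fun p hp => ⟨hp.2, _, hp.1, 1, one_mem _, mul_comm _ _⟩, fun g hg => ⟨by rwa [div_one], rfl⟩⟩

end Pool.Agent.MP_5d9b3c_ag.P3R
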