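import Pool.Agent.MP_5d9b3c_ag.P3R.Fin
import Pool.Agent.MP_5d9b3c_ag.P3G.Kit
import Pool.Agent.MP_5d9b3c_ag.P3T.KK
import Pool.Agent.MP_ee8c61_ag.M3E.Final

/-! Log resolutions that are stable under the Galois group. -/

namespace Pool.Agent.MP_5d9b3c_ag.P3R

open MvPolynomial Set
open Pool.Agent.MP_96693b_ag.RS (Der Loc LocOf)
open Pool.Agent.MP_ee8c61_ag
open M3 M3B1 P3 P3T

variable {N : ℕ} {F : Type} [Field F] [Algebra F ℂ]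

/-- The model is stable under the group. -/
structure StabM (A : GA F (KK N)) (M : Mod N) : Prop where
  pts : ∀ σ, ∀ P ∈ M.pts, (A.si σ).loc P ∈ M.pts
  perm : ∀ σ j, ∃ j', M.v j' = (A.si σ).dv (M.v j)
  sep : ∀ σ j j', M.v j' = (A.si σ).dv (M.v j) → ∀ P ∈ M.pts, M.On P j → M.On P j' → j' = j
  amp : ∃ w, M.Amp w ∧ ∀ σ j j', M.v j' = (A.si σ).dv (M.v j) → w j' = w j

/-- The model is the blow-up of a set of invariant polynomials. -/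
structure Blw (A : GA F (KK N)) (f : Po N) (W : Set (Po N)) (M : Mod N) : Prop where
  good : Good f W
  fix : ∀ w ∈ W, ip N w ∈ A.fix
  str : Str W M
  pts : M.pts = {P | ∃ w ∈ W, LocOf (ch W w) P}

section chart

variable {W : Set (Po N)} {w w' f : Po N} {t x : KK N} {V : Vl N} {P : Loc (KK N)}
  {o : DV (KK N)} {M : Mod N}

theorem lc_of {B B' : Subalgebra ℂ (KK N)} (h : ∀ y ∈ B, Lc B' V y) (hx : Lc B V x) :
    Lc B' V x := by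
  obtain ⟨s, a1, a2, a3⟩ := hx
  have : x = s⁻¹ * (s * x) := (inv_mul_cancel_left₀ a2.1 x).symm
  rw [this]
  exact ((h s a1).inv a2).mul (h _ a3)

theorem lc_cl (ht : t ∈ ch W w) (h0 : t ≠ 0) (hV : ∀ y ∈ cl W w t, y ∈ V) (hx : x ∈ cl W w t) :
    Lc (ch W w) V x := by
  obtain ⟨e, he⟩ := exists_pow_cl ht h0 hx
  have hu : Un V t := ⟨h0, hV _ (ch_le_cl ht), hV _ inv_mem_cl⟩
  exact ⟨t ^ e, pow_mem ht e, hu.pow e, he⟩

theorem lc_ch (hw : w ∈ W) (hw' : w' ∈ W) (h0 : w ≠ 0) (h0' : w' ≠ 0)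
    (hV : ∀ y ∈ ch W w, y ∈ V) (hV' : ∀ y ∈ ch W w', y ∈ V) (hx : x ∈ ch W w') :
    Lc (ch W w) V x := by
  obtain ⟨e, he⟩ := ch_shift (w := w) hw' h0' hx
  have hu : Un V (ip N w' / ip N w) := ⟨div_ne_zero (ip_ne h0') (ip_ne h0),
    hV _ (div_mem_ch hw'), by rw [inv_div]; exact hV' _ (div_mem_ch hw)⟩
  exact ⟨_, pow_mem (div_mem_ch hw') e, hu.pow e, he e le_rfl⟩

theorem ev_ne_of_inv (h0 : t ≠ 0) (h1 : t ∈ P.O) (h2 : t⁻¹ ∈ P.O) : P.ev t ≠ 0 := by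
  have := P.ev_mul _ h1 _ h2
  rw [mul_inv_cancel₀ h0, Loc.ev_one] at this
  exact left_ne_zero_of_mul (this ▸ one_ne_zero)

theorem locOf_of {B B' : Subalgebra ℂ (KK N)} (h : LocOf B P) (h1 : B' ≤ P.O)
    (h2 : ∀ y ∈ B, ∃ s ∈ B', P.ev s ≠ 0 ∧ s * y ∈ B') : LocOf B' P := by
  refine ⟨h1, fun g hg => ?_⟩
  obtain ⟨p, hp, q, hq, a1, a2⟩ := h.frac g hg
  obtain ⟨s, b1, b2, b3⟩ := h2 p hp
  obtain ⟨r, c1, c2, c3⟩ := h2 q hq
  refine ⟨r * (s * p), mul_mem c1 b3, s * (r * q), mul_mem b1 c3, ?_, by rw [← a2]; ring⟩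
  rw [P.ev_mul _ (h1 b1) _ (h1 c3), P.ev_mul _ (h1 c1) _ (h.le hq)]
  exact mul_ne_zero b2 (mul_ne_zero c2 a1)

theorem locOf_cl (ht : t ∈ ch W w) (h0 : t ≠ 0) (h : LocOf (cl W w t) P) : LocOf (ch W w) P := by
  refine locOf_of h (ch_le_cl.trans h.le) fun y hy => ?_
  obtain ⟨e, he⟩ := exists_pow_cl ht h0 hy
  have h1 := h.le (ch_le_cl ht)
  exact ⟨t ^ e, pow_mem ht e, by
    rw [Loc.ev_pow h1]; exact pow_ne_zero _ (ev_ne_of_inv h0 h1 (h.le inv_mem_cl)), he⟩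

theorem exists_dom (P : Loc (KK N)) :
    ∃ V : Vl N, (∀ g ∈ P.O, g ∈ V) ∧ ∀ g ∈ P.O, Un V g → P.ev g ≠ 0 := by
  let I : Ideal P.O.toSubring :=
    { carrier := {g | P.ev g = 0}
      add_mem' := fun {a b} ha hb => by
        show P.ev ((a : KK N) + b) = 0
        rw [P.ev_add _ a.2 _ b.2, show P.ev a = 0 from ha, show P.ev b = 0 from hb, add_zero]
      zero_mem' := Loc.ev_zero
      smul_mem' := fun c a ha => by
        show P.ev ((c : KK N) * a) = 0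
        rw [P.ev_mul _ c.2 _ a.2, show P.ev a = 0 from ha, mul_zero] }
  have : I.IsPrime := ⟨(Ideal.ne_top_iff_one _).2 fun h => one_ne_zero
      ((Loc.ev_one (L := P)).symm.trans h), fun {a b} h =>
    mul_eq_zero.1 ((P.ev_mul _ a.2 _ b.2).symm.trans h)⟩
  obtain ⟨V, h1, h2⟩ := M3E.RNb.exists_centre P.O.toSubring I
  exact ⟨V, h1, fun g hg hu h0 => (h2 ⟨g, hg⟩).1 h0 hu⟩

theorem pts_eq (hM : M.OK f) (hW : Good f W) (hS : Str W M) :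
    M.pts = {P | ∃ w ∈ W, LocOf (ch W w) P} := by
  obtain ⟨w, t, c, h1, h2, h3, h4, -⟩ := hS
  have hw0 : ∀ u ∈ W, u ≠ 0 := fun u hu e => hW.nz (e ▸ hu)
  refine Subset.antisymm ?_ ?_
  · rintro P ⟨b, hb⟩
    exact ⟨w b, h1 b, locOf_cl (h2 b) (h3 b) (h4 b ▸ hb)⟩
  · rintro P ⟨u, hu, hP⟩
    obtain ⟨V, a1, a2⟩ := exists_dom P
    obtain ⟨b, hb⟩ := hM.cov V fun p => a1 _ (hP.le (ip_mem_ch p))
    have a3 : ∀ y ∈ cl W (w b) (t b), y ∈ V := fun y hy => hb y (h4 b ▸ hy)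
    have u0 := ip_ne (hw0 u hu)
    have w0 := ip_ne (hw0 _ (h1 b))
    have a4 : ip N (w b) / ip N u ∈ P.O := hP.le (div_mem_ch (h1 b))
    have a5 : P.ev (ip N (w b) / ip N u) ≠ 0 := a2 _ a4 ⟨div_ne_zero w0 u0, a1 _ a4, by
      rw [inv_div]; exact a3 _ (ch_le_cl (div_mem_ch hu))⟩
    have a6 : ch W (w b) ≤ P.O := ch_le.2 ⟨fun p => hP.le (ip_mem_ch p), fun v hv => by
      rw [← div_div_div_cancel_right₀ u0]
      exact Loc.div_mem (hP.le (div_mem_ch hv)) a4 a5⟩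
    have a7 : P.ev (t b) ≠ 0 :=
      a2 _ (a6 (h2 b)) ⟨h3 b, a3 _ (ch_le_cl (h2 b)), a3 _ inv_mem_cl⟩
    refine ⟨b, h4 b ▸ locOf_of hP (cl_le.2 ⟨a6, P.inv_mem _ (a6 (h2 b)) a7⟩) fun y hy => ?_⟩
    obtain ⟨e, he⟩ := ch_shift (w := w b) hu (hw0 u hu) hy
    refine ⟨_, ch_le_cl (pow_mem (div_mem_ch hu) e), ?_, ch_le_cl (he e le_rfl)⟩
    rw [Loc.ev_pow (a6 (div_mem_ch hu)), ← inv_div, Loc.ev_inv a4 a5]
    exact pow_ne_zero _ (inv_ne_zero a5)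

theorem isDV (hM : M.OK f) {b : M.ι} {j : M.J} (h : (M.η b j)⁻¹ ∉ M.S.A b) :
    IsDV (M.S.A b) (M.η b j) (M.v j) :=
  have h1 := hM.dv b j h
  ⟨h1.1, h1.2.1, h1.2.2, (M3E.eout.bas N f M hM).frac b j h1.1⟩

theorem v_f (hM : M.OK f) (j : M.J) : (M.v j).v (ip N f) = M.a j := by
  have B := M3E.eout.bas N f M hM
  have := ((B.gen_v j _ _).1 (B.gen_f _)).2
  simpa [Mod.aa] using this

theorem locV_v (hM : M.OK f) (hS : Str W M) (j : M.J) : ∃ w ∈ W, LocV (ch W w) (M.v j) := by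
  obtain ⟨w, t, c, h1, h2, h3, h4, -⟩ := hS
  obtain ⟨b, hb⟩ := hM.ne j
  have hd := isDV hM hb
  rw [h4] at hd
  exact ⟨w b, h1 b, fun g hg => hd.le g (ch_le_cl hg), fun x hx =>
    lc_of (fun y hy => lc_cl (h2 b) (h3 b) hd.le hy) (hd.loc x hx)⟩

theorem exists_j (hM : M.OK f) (hW : Good f W) (hS : Str W M) (hw : w ∈ W)
    (ho : LocV (ch W w) o) (hf : 0 < o.v (ip N f)) {π : KK N} (hπ : o.v π = 1) :
    ∃ j, M.v j = o := by
  obtain ⟨u, t, c, h1, h2, h3, h4, -⟩ := hS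
  have hw0 : ∀ u ∈ W, u ≠ 0 := fun u hu e => hW.nz (e ▸ hu)
  have B := M3E.eout.bas N f M hM
  obtain ⟨b, hb⟩ := hM.cov o.O fun p => ho.le _ (ip_mem_ch p)
  have a1 : LocV (M.S.A b) o := ⟨hb, fun x hx => lc_of (fun y hy => by
    obtain ⟨s, c1, c2, c3⟩ := lc_ch (h1 b) hw (hw0 _ (h1 b)) (hw0 _ hw)
      (fun z hz => hb z (h4 b ▸ ch_le_cl hz)) ho.le hy
    exact ⟨s, h4 b ▸ ch_le_cl c1, c2, h4 b ▸ ch_le_cl c3⟩) (ho.loc x hx)⟩
  have a2 : ∃ j, M.Thru o.O j := by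
    by_contra hc
    push Not at hc
    have a3 := (B.gen_f o.O b hb).cancel (B.un_of b o.O _ hb fun j hj => absurd hj (hc j))
    have := (o.un_O.1 a3).2
    omega
  obtain ⟨j, hj⟩ := a2
  exact ⟨j, (a1.eq (isDV hM (B.in_v b o.O j hb hj).2.1)
    (F_of_not_un (hb _ (B.η_mem b j)) (hj b hb)) hπ).symm⟩

end chart

variable (A : GA F (KK N))

/-- The family of automorphisms given by a group action. -/
def fam : Fam (KK N) where
  S := {s | ∃ σ, ∀ x, s.e x = A.ρ σ x}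
  symm := fun s ⟨σ, h⟩ => ⟨σ⁻¹, fun x => by
    apply s.e.injective
    rw [Sy.e_symm_e, h, A.ap_inv]⟩

/-- The automorphism given by an element of the group. -/
noncomputable def sy (σ : Gm F) : Sy (KK N) := ⟨σ.toRingEquiv, A.ρ σ, A.semi σ⟩

theorem sy_mem (σ : Gm F) : sy A σ ∈ (fam A).S := ⟨σ, fun _ => rfl⟩

theorem sy_cj (σ : Gm F) (P : Loc (KK N)) : Cj (sy A σ) P ((A.si σ).loc P) :=
  ⟨fun _ => (A.si σ).e_mem_sa, fun g => (A.si σ).loc_e P g⟩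

variable {A}

theorem ch_stb (hx : ∀ l, xx N l ∈ A.fix) {W : Set (Po N)} (hW : ∀ w ∈ W, ip N w ∈ A.fix)
    {w : Po N} (hw : w ∈ W) : A.Stb (ch W w) := by
  refine GA.Stb.adjoin ?_
  rintro σ _ (⟨p, rfl⟩ | ⟨v, hv, rfl⟩)
  · exact Or.inl ((SI.mem_ip (s := A.si σ) fun l => hx l σ).2 ⟨p, rfl⟩)
  · exact Or.inr ⟨v, hv, (div_mem (hW v hv) (hW w hw) σ).symm⟩

theorem sa_ch (hx : ∀ l, xx N l ∈ A.fix) {W : Set (Po N)} (hW : ∀ w ∈ W, ip N w ∈ A.fix)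
    {w : Po N} (hw : w ∈ W) (σ : Gm F) : (sy A σ).sa (ch W w) = ch W w :=
  SetLike.ext fun g => by
    obtain ⟨y, rfl⟩ := (sy A σ).surj g
    rw [Sy.mem_sa, Sy.symm_e_e]
    exact ((ch_stb hx hW hw).iff σ).symm

theorem stabM_of (hx : ∀ l, xx N l ∈ A.fix) {f : Po N} (hf : ip N f ∈ A.fix) {W : Set (Po N)}
    {M : Mod N} (hM : M.OK f) (hB : Blw A f W M) (hS : Sep (fam A) f W) : StabM A M := by
  have hv : ∀ σ (o : DV (KK N)) g, ((A.si σ).dv o).v ((sy A σ).e g) = o.v g :=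
    fun σ o g => (A.si σ).dv_e o g
  have hfix : ∀ σ (o : DV (KK N)), ∀ g ∈ A.fix, ((A.si σ).dv o).v g = o.v g := fun σ o g hg => by
    rw [← hv σ o g]
    exact congrArg _ (hg σ).symm
  have hpos : ∀ j, 0 < (M.v j).v (ip N f) := fun j => by
    rw [v_f hM]
    exact_mod_cast hM.pos j
  have huni : ∀ j, ∃ π, (M.v j).v π = 1 := fun j =>
    let ⟨_, hb⟩ := hM.ne j
    ⟨_, (isDV hM hb).one⟩
  refine ⟨fun σ P hP => ?_, fun σ j => ?_, fun σ j j' e P hP h1 h2 => ?_, ?_⟩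
  · rw [hB.pts] at hP ⊢
    obtain ⟨w, hw, hP⟩ := hP
    exact ⟨w, hw, sa_ch hx hB.fix hw σ ▸ (sy_cj A σ P).locOf hP⟩
  · obtain ⟨w, hw, h1⟩ := locV_v hM hB.str j
    obtain ⟨π, hπ⟩ := huni j
    exact exists_j hM hB.good hB.str hw (sa_ch hx hB.fix hw σ ▸ h1.tr (hv σ _))
      (by rw [hfix σ _ _ hf]; exact hpos j) ((hv σ _ π).trans hπ)
  · rw [hB.pts] at hP
    obtain ⟨w, hw, hP⟩ := hP
    have := hS _ (sy_mem A σ) (M.v j) (M.v j') (e ▸ hv σ _) (hpos j) (huni j)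
      (locV_v hM hB.str j) w hw P hP h1 h2
    exact hM.inj _ _ (congrArg DV.O this.symm)
  · obtain ⟨w, t, c, h1, h2, h3, h4, h5, e, h6⟩ := hB.str
    have B := M3E.eout.bas N f M hM
    have hw0 : ∀ u ∈ W, ip N u ≠ 0 := fun u hu => ip_ne fun e => hB.good.nz (e ▸ hu)
    have key : ∀ j, ∃ u ∈ W, (M.v j).v (ip N u) = -c j ∧ ∀ u' ∈ W, -c j ≤ (M.v j).v (ip N u') := by
      intro j
      obtain ⟨b, hb⟩ := hM.ne j
      have a1 := (hM.dv b j hb).1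
      have a2 := (h5 b).v a1
      rw [(M.v j).mul _ _ (hw0 _ (h1 b)) (M.S.mon b c).ne_zero, B.v_mon b j c a1] at a2
      refine ⟨w b, h1 b, by omega, fun u' hu' => ?_⟩
      have a3 := v_nonneg (a1 _ (h4 b ▸ ch_le_cl (div_mem_ch hu')))
      rw [(M.v j).div (hw0 _ hu') (hw0 _ (h1 b))] at a3
      omega
    refine ⟨_, h6, fun σ j j' e' => ?_⟩
    obtain ⟨u, a1, a2, a3⟩ := key j
    obtain ⟨u', b1, b2, b3⟩ := key j'
    have c1 := a3 u' b1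
    have c2 := b3 u a1
    rw [e', hfix σ _ _ (hB.fix _ a1)] at c2
    rw [e', hfix σ _ _ (hB.fix _ b1)] at b2
    show c j' * e = c j * e
    rw [show c j' = c j by omega]

variable [Algebra.IsAlgebraic F ℂ]

/-- Principalisation by a blow-up of invariant polynomials. -/
theorem domF (hx : ∀ l, xx N l ∈ A.fix) (f : Po N) (G : Set (Po N)) (hf : f ≠ 0)
    (hG : G.Finite) (hr : f ∈ (Ideal.span G).radical) (hfs : ip N f ∈ A.fix)
    (hGs : A.Stb (ip N '' G)) :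
    ∃ W, Good f W ∧ Prin W G ∧ (∀ w ∈ W, ip N w ∈ A.fix) ∧ Sep (fam A) f W := by
  refine domG (fam A) (· ∈ A.fix) (fun W hW hs => ?_) ?_ f G hf hG hr ?_ ?_
  · have := FiniteDimensional.span_of_finite ℂ hW
    obtain ⟨t, h1, h2⟩ := A.sa.desc_fin (Submodule.span ℂ W)
      fun σ x hx' => hs.span (sy_mem A σ) hx'
    exact ⟨t, t.finite_toSet, h2, h1⟩
  · rintro s ⟨σ, h⟩ l
    exact (h _).trans (hx l σ)
  · rintro s ⟨σ, h⟩
    exact (h _).trans (hfs σ)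
  · rintro s ⟨σ, h⟩ g hg
    obtain ⟨g', h1, h2⟩ := hGs σ _ ⟨g, hg, rfl⟩
    exact ⟨g', h1, (h _).trans h2.symm⟩

/-- Stable models that principalise a stable finite set of polynomials. -/
theorem sb1G (hx : ∀ l, xx N l ∈ A.fix) (f : Po N) (G : Finset (Po N)) (hf : f ≠ 0)
    (hr : ∃ r, f ^ r ∈ G) (hfs : ip N f ∈ A.fix) (hGs : A.Stb (ip N '' G)) :
    ∃ M : Mod N, M.OK f ∧ StabM A M ∧ (∃ W, Blw A f W M ∧ Prin W G) ∧
      ∃ c, ∀ T : Finset (KK N), (T : Set (KK N)) = ip N '' G → M.Gens c T := by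
  obtain ⟨W, h1, h2, h3, h4⟩ := domF hx f G hf G.finite_toSet
    (let ⟨r, h⟩ := hr; ⟨r, Ideal.subset_span h⟩) hfs hGs
  obtain ⟨M, hM, hS, hc⟩ := finG f W G hf hr h1 h2
  have hB : Blw A f W M := ⟨h1, h3, hS, pts_eq hM h1 hS⟩
  exact ⟨M, hM, stabM_of hx hfs hM hB h4, ⟨W, hB, h2⟩, hc⟩

/-- A stable log resolution exists. -/
theorem exists_stab (hx : ∀ l, xx N l ∈ A.fix) (f : Po N) (hf : f ≠ 0) (hfs : ip N f ∈ A.fix) :
    ∃ M : Mod N, M.OK f ∧ StabM A M ∧ ∃ W, Blw A f W M := by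
  obtain ⟨M, h1, h2, ⟨W, h3, -⟩, -⟩ := sb1G hx f {f} hf ⟨1, by simp⟩ hfs
    (GA.stb_of_fix (by simpa using hfs))
  exact ⟨M, h1, h2, W, h3⟩

end Pool.Agent.MP_5d9b3c_ag.P3R
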